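import Mathlib

/-!
# Logarithm lemmas
-/

namespace Pool.Agent.helper63.FF

open Complex ComplexConjugate Set

/-- `‖log (1 + u)‖ ≤ -log (1 - ‖u‖)` -/
theorem norm_log_le {u : ℂ} (hu : ‖u‖ < 1) : ‖log (1 + u)‖ ≤ -Real.log (1 - ‖u‖) := by
  have h0 : ‖-u‖ < 1 := by rwa [norm_neg]
  have h1 := hasSum_taylorSeries_neg_log' h0
  have h2 := Real.hasSum_pow_div_log_of_abs_lt_one (x := ‖u‖) (by rwa [abs_of_nonneg (norm_nonneg _)])
  have h4 : ‖-log (1 - -u)‖ ≤ -Real.log (1 - ‖u‖) := by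
    refine h1.norm_le_of_bounded h2 ?_
    intro n
    rw [norm_div, norm_pow, norm_neg]
    have : ‖((n : ℂ) + 1)‖ = (n : ℝ) + 1 := by
      rw [← Nat.cast_succ, Complex.norm_natCast]; push_cast; ring
    rw [this]
  rwa [norm_neg, sub_neg_eq_add] at h4

theorem neg_log_le {x : ℝ} (h : x < 1) : -Real.log (1 - x) ≤ x / (1 - x) := by
  have h1 : 0 < 1 - x := by linarith
  have h2 := Real.one_sub_inv_le_log_of_pos h1
  have h3 : 1 - (1 - x)⁻¹ = -(x / (1 - x)) := by field_simp; ring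
  linarith

theorem log_sub_log {u v : ℂ} (hu : 0 < u.re) (hv : 0 < v.re) : log u - log v = log (u / v) := by
  have hu0 : u ≠ 0 := by rintro rfl; simp at hu
  have hv0 : v ≠ 0 := by rintro rfl; simp at hv
  have h1 : exp (log u - log v) = u / v := by rw [Complex.exp_sub, exp_log hu0, exp_log hv0]
  have a1 := (Complex.abs_arg_lt_pi_div_two_iff.2 (Or.inl hu))
  have a2 := (Complex.abs_arg_lt_pi_div_two_iff.2 (Or.inl hv))
  rw [abs_lt] at a1 a2
  rw [← h1, Complex.log_exp]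
  · rw [Complex.sub_im, Complex.log_im, Complex.log_im]; linarith
  · rw [Complex.sub_im, Complex.log_im, Complex.log_im]; linarith

theorem norm_log_sub_le {u v : ℂ} (hu : 0 < u.re) (hv : 0 < v.re) {c : ℝ} (h : ‖u / v - 1‖ ≤ c)
    (hc : c < 1) : ‖log u - log v‖ ≤ -Real.log (1 - c) := by
  rw [log_sub_log hu hv]
  have h1 := norm_log_le (u := u / v - 1) (by linarith)
  rw [add_sub_cancel] at h1
  refine h1.trans ?_
  have h2 : 0 < 1 - c := by linarith
  have := Real.log_le_log h2 (by linarith : 1 - c ≤ 1 - ‖u / v - 1‖)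
  linarith

/-- `‖log (1 + w) - log (1 - w)‖ ≤ log (1 + ‖w‖) - log (1 - ‖w‖)` -/
theorem norm_log_odd {w : ℂ} (hw : ‖w‖ < 1) :
    ‖log (1 + w) - log (1 - w)‖ ≤ Real.log (1 + ‖w‖) - Real.log (1 - ‖w‖) := by
  have h0 : ‖-w‖ < 1 := by rwa [norm_neg]
  have h1 := (hasSum_taylorSeries_neg_log' hw).sub (hasSum_taylorSeries_neg_log' h0)
  have h2 := (Real.hasSum_pow_div_log_of_abs_lt_one (x := ‖w‖)
    (by rwa [abs_of_nonneg (norm_nonneg _)])).sub
    (Real.hasSum_pow_div_log_of_abs_lt_one (x := -‖w‖)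
    (by rwa [abs_neg, abs_of_nonneg (norm_nonneg _)]))
  have h4 := h1.norm_le_of_bounded h2 (by
    intro n
    have : ((n : ℂ) + 1) = (((n : ℝ) + 1 : ℝ) : ℂ) := by push_cast; ring
    rw [this, ← sub_div, norm_div, Complex.norm_real, Real.norm_of_nonneg (by positivity), ← sub_div]
    refine div_le_div_of_nonneg_right ?_ (by positivity)
    rcases Nat.even_or_odd (n + 1) with h | h
    · rw [h.neg_pow, h.neg_pow, sub_self, sub_self, norm_zero]
    · rw [h.neg_pow, h.neg_pow, sub_neg_eq_add, sub_neg_eq_add, ← two_mul, ← two_mul, norm_mul,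
        norm_pow, Complex.norm_ofNat])
  have e1 : log (1 + w) - log (1 - w) = -log (1 - w) - -log (1 - -w) := by rw [sub_neg_eq_add]; ring_nf
  have e2 : Real.log (1 + ‖w‖) - Real.log (1 - ‖w‖) =
      -Real.log (1 - ‖w‖) - -Real.log (1 - -‖w‖) := by rw [sub_neg_eq_add]; ring_nf
  rw [e1, e2]
  exact h4

/-- distance of the logarithms of a number in the half plane and a positive number -/
theorem norm_log_real {u : ℂ} {v r : ℝ} (hu : 0 < u.re) (hv : 0 < v)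
    (h : ‖u - (v : ℂ)‖ ≤ r * ‖u + (v : ℂ)‖) (hr : r < 1) :
    ‖log u - log (v : ℂ)‖ ≤ Real.log ((1 + r) / (1 - r)) := by
  have h1 : 0 < (u + (v : ℂ)).re := by rw [Complex.add_re, Complex.ofReal_re]; linarith
  have h2 : u + (v : ℂ) ≠ 0 := by intro h0; rw [h0, Complex.zero_re] at h1; exact lt_irrefl _ h1
  set w := (u - (v : ℂ)) / (u + (v : ℂ)) with hw
  have hwn : ‖w‖ ≤ r := by
    rw [hw, norm_div, div_le_iff₀ (norm_pos_iff.2 h2)]; exact h
  have hw1 : ‖w‖ < 1 := by linarith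
  have hvc : (v : ℂ) ≠ 0 := by exact_mod_cast hv.ne'
  have hre := Complex.abs_re_le_norm w
  have hre' := abs_le.1 hre
  have p1 : 0 < (1 + w).re := by rw [Complex.add_re, Complex.one_re]; linarith
  have p2 : 0 < (1 - w).re := by rw [Complex.sub_re, Complex.one_re]; linarith
  have h3 : u / (v : ℂ) = (1 + w) / (1 - w) := by
    have e1 : 1 + w = 2 * u / (u + (v : ℂ)) := by rw [hw]; field_simp; ring
    have e2 : 1 - w = 2 * (v : ℂ) / (u + (v : ℂ)) := by rw [hw]; field_simp; ring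
    rw [e1, e2, div_div_div_cancel_right₀ h2, mul_div_mul_left _ _ two_ne_zero]
  rw [log_sub_log hu (by simpa using hv), h3, ← log_sub_log p1 p2]
  refine (norm_log_odd hw1).trans ?_
  have hn := norm_nonneg w
  rw [Real.log_div (by linarith) (by linarith)]
  have a1 := Real.log_le_log (by linarith : 0 < 1 + ‖w‖) (by linarith : 1 + ‖w‖ ≤ 1 + r)
  have a2 := Real.log_le_log (by linarith : 0 < 1 - r) (by linarith : 1 - r ≤ 1 - ‖w‖)
  linarith

theorem one_sub_pow_le {z : ℂ} (hz : ‖z‖ ≤ 1) (n : ℕ) : ‖1 - z ^ n‖ ≤ n * ‖1 - z‖ := by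
  induction n with
  | zero => simp
  | succ n ih =>
    have e1 : 1 - z ^ (n + 1) = (1 - z ^ n) + z ^ n * (1 - z) := by ring
    rw [e1]
    refine (norm_add_le _ _).trans ?_
    rw [norm_mul, norm_pow]
    have h1 : ‖z‖ ^ n ≤ 1 := pow_le_one₀ (norm_nonneg _) hz
    have h2 : ‖z‖ ^ n * ‖1 - z‖ ≤ 1 * ‖1 - z‖ := mul_le_mul_of_nonneg_right h1 (norm_nonneg _)
    push_cast
    linarith

/-- **H7** -/
theorem H7a {q χ : ℂ} {X : ℝ} (hq : ‖q‖ ≤ 1) (hχ : ‖χ‖ ≤ X) (hX : X < 1) :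
    ‖log (1 + q * χ) - log (1 - χ)‖ ≤ ‖1 + q‖ * (X / (1 - X)) := by
  have hX0 : 0 ≤ X := (norm_nonneg _).trans hχ
  have h0 : ‖-(q * χ)‖ < 1 := by
    rw [norm_neg, norm_mul]
    have := mul_le_mul hq hχ (norm_nonneg _) (by norm_num)
    linarith
  have h1 := (hasSum_taylorSeries_neg_log' (by linarith : ‖χ‖ < 1)).sub
    (hasSum_taylorSeries_neg_log' h0)
  have h2 : HasSum (fun n : ℕ => ‖1 + q‖ * (X * X ^ n)) (‖1 + q‖ * (X * (1 - X)⁻¹)) :=
    ((hasSum_geometric_of_lt_one hX0 hX).mul_left X).mul_left _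
  have h4 := h1.norm_le_of_bounded h2 (by
    intro n
    have : ((n : ℂ) + 1) = (((n : ℝ) + 1 : ℝ) : ℂ) := by push_cast; ring
    rw [this, ← sub_div, norm_div, Complex.norm_real, Real.norm_of_nonneg (by positivity),
      div_le_iff₀ (by positivity)]
    have e1 : χ ^ (n + 1) - (-(q * χ)) ^ (n + 1) = χ ^ (n + 1) * (1 - (-q) ^ (n + 1)) := by
      rw [show -(q * χ) = (-q) * χ by ring, mul_pow]; ring
    rw [e1, norm_mul, norm_pow]
    have e2 := one_sub_pow_le (z := -q) (by rwa [norm_neg]) (n + 1)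
    rw [sub_neg_eq_add] at e2
    have e3 : ‖χ‖ ^ (n + 1) ≤ X ^ (n + 1) := pow_le_pow_left₀ (norm_nonneg _) hχ _
    have e4 := mul_le_mul e3 e2 (norm_nonneg _) (by positivity)
    refine e4.trans (le_of_eq ?_)
    push_cast
    ring)
  have e1 : log (1 + q * χ) - log (1 - χ) = -log (1 - χ) - -log (1 - -(q * χ)) := by
    rw [sub_neg_eq_add]; ring_nf
  rw [e1, div_eq_mul_inv]
  exact h4

theorem H7b {q χ : ℂ} {X : ℝ} (hχ : ‖χ‖ ≤ X) (hX : ‖q‖ * X < 1) :
    ‖log (1 + q * χ)‖ ≤ ‖q‖ * X / (1 - ‖q‖ * X) := by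
  have h1 : ‖q * χ‖ ≤ ‖q‖ * X := by
    rw [norm_mul]; exact mul_le_mul_of_nonneg_left hχ (norm_nonneg _)
  have h2 := norm_log_le (u := q * χ) (by linarith)
  refine h2.trans ?_
  have h3 := Real.log_le_log (by linarith : 0 < 1 - ‖q‖ * X) (by linarith : 1 - ‖q‖ * X ≤ 1 - ‖q * χ‖)
  have h4 := neg_log_le hX
  linarith

theorem norm_exp_sub_one {z : ℂ} {l : ℝ} (h : ‖z‖ ≤ l) : ‖exp z - 1‖ ≤ Real.exp l - 1 := by
  have h1 := Complex.norm_exp_sub_sum_le_exp_norm_sub_sum z 1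
  simp only [Finset.sum_range_one, pow_zero, Nat.factorial_zero, Nat.cast_one, div_one] at h1
  have h2 := Real.exp_le_exp.2 h
  linarith

/-- square root near a number of small argument -/
theorem sqrt_near {Q Δ : ℂ} {E0 : ℝ} (hQ : 0 < Q.re) (hQi : |Q.im| ≤ Q.re) (hΔ : ‖Δ‖ ≤ 2 * ‖Q‖ * E0)
    (hE : 2 * E0 < ‖Q‖) :
    Q ^ 2 + Δ ∈ slitPlane ∧ ‖(Q ^ 2 + Δ) ^ ((1 / 2 : ℝ) : ℂ) - Q‖ ≤ E0 / (1 - E0 / ‖Q‖) := by
  have hQ0 : Q ≠ 0 := by rintro rfl; simp at hQ
  have hQn : 0 < ‖Q‖ := norm_pos_iff.2 hQ0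
  have hE0 : 0 ≤ E0 := by
    by_contra h
    push Not at h
    have : 2 * ‖Q‖ * E0 < 0 := mul_neg_of_pos_of_neg (by linarith) h
    linarith [norm_nonneg Δ]
  set u := Δ / Q ^ 2 with hu
  have hun : ‖u‖ ≤ 2 * E0 / ‖Q‖ := by
    rw [hu, norm_div, norm_pow, div_le_div_iff₀ (by positivity) hQn]
    nlinarith [mul_le_mul_of_nonneg_right hΔ hQn.le]
  have hu1 : 2 * E0 / ‖Q‖ < 1 := by rw [div_lt_one hQn]; exact hE
  have hu2 : ‖u‖ < 1 := by linarith
  have hre := abs_le.1 (Complex.abs_re_le_norm u)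
  have h1u : 0 < (1 + u).re := by rw [Complex.add_re, Complex.one_re]; linarith
  have h1u0 : 1 + u ≠ 0 := by intro h0; rw [h0] at h1u; simp at h1u
  -- the root of 1 + u
  set s := exp (log (1 + u) / 2) with hs
  have hs2 : s ^ 2 = 1 + u := by
    rw [hs, ← Complex.exp_nat_mul]
    rw [show ((2 : ℕ) : ℂ) * (log (1 + u) / 2) = log (1 + u) by push_cast; ring, exp_log h1u0]
  have harg := abs_lt.1 (Complex.abs_arg_lt_pi_div_two_iff.2 (Or.inl h1u))
  have hpi := Real.pi_pos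
  have him : (log (1 + u) / 2).im = arg (1 + u) / 2 := by
    have : (log (1 + u) / 2).im = (log (1 + u)).im / 2 := by
      rw [show log (1 + u) / 2 = log (1 + u) / ((2 : ℝ) : ℂ) by push_cast; ring, Complex.div_ofReal_im]
    rw [this, Complex.log_im]
  have hsre : 0 < s.re := by
    rw [hs, Complex.exp_re, him]
    apply mul_pos (Real.exp_pos _)
    apply Real.cos_pos_of_mem_Ioo
    constructor <;> linarith
  have hsim : |s.im| < s.re := by
    rw [hs, Complex.exp_re, Complex.exp_im, him, abs_mul, abs_of_pos (Real.exp_pos _)]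
    apply mul_lt_mul_of_pos_left _ (Real.exp_pos _)
    set a := arg (1 + u) / 2 with hadef
    have ha1 : -(Real.pi / 4) < a := by linarith
    have ha2 : a < Real.pi / 4 := by linarith
    have hc : 0 < Real.cos (2 * a) := by
      apply Real.cos_pos_of_mem_Ioo
      constructor <;> linarith
    rw [Real.cos_two_mul] at hc
    have hcs := Real.sin_sq_add_cos_sq a
    have hc2 : 0 < Real.cos a := by
      apply Real.cos_pos_of_mem_Ioo
      constructor <;> linarith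
    apply abs_lt_of_sq_lt_sq _ hc2.le
    nlinarith
  have hQs : 0 < (Q * s).re := by
    rw [Complex.mul_re]
    have h1 : |Q.im * s.im| < Q.re * s.re := by
      rw [abs_mul]
      calc |Q.im| * |s.im| ≤ Q.re * |s.im| := mul_le_mul_of_nonneg_right hQi (abs_nonneg _)
        _ < Q.re * s.re := mul_lt_mul_of_pos_left hsim hQ
    have := (abs_lt.1 h1).2
    linarith
  have hsq : (Q * s) ^ 2 = Q ^ 2 + Δ := by
    rw [mul_pow, hs2, hu]; field_simp
  have hQs0 : Q * s ≠ 0 := by intro h0; rw [h0] at hQs; simp at hQs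
  have hargQs := abs_lt.1 (Complex.abs_arg_lt_pi_div_two_iff.2 (Or.inl hQs))
  have hlog : log ((Q * s) ^ 2) = 2 * log (Q * s) := by
    have e1 : (Q * s) ^ 2 = exp (2 * log (Q * s)) := by
      rw [two_mul, Complex.exp_add, exp_log hQs0]; ring
    rw [e1, Complex.log_exp]
    · have : (2 * log (Q * s)).im = 2 * arg (Q * s) := by simp [Complex.log_im]
      rw [this]; linarith
    · have : (2 * log (Q * s)).im = 2 * arg (Q * s) := by simp [Complex.log_im]
      rw [this]; linarith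
  have hslit : Q ^ 2 + Δ ∈ slitPlane := by
    rw [← hsq, Complex.mem_slitPlane_iff_arg]
    refine ⟨?_, pow_ne_zero 2 hQs0⟩
    have : arg ((Q * s) ^ 2) = 2 * arg (Q * s) := by
      rw [← Complex.log_im, hlog]; simp [Complex.log_im]
    rw [this]
    intro h0
    linarith
  refine ⟨hslit, ?_⟩
  have hroot : (Q ^ 2 + Δ) ^ ((1 / 2 : ℝ) : ℂ) = Q * s := by
    rw [← hsq, Complex.cpow_def_of_ne_zero (pow_ne_zero 2 hQs0), hlog]
    rw [show 2 * log (Q * s) * ((1 / 2 : ℝ) : ℂ) = log (Q * s) by push_cast; ring, exp_log hQs0]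
  rw [hroot]
  -- v = s - 1
  have hv : ‖s - 1‖ ≤ ‖u‖ / (2 - ‖u‖) := by
    have e1 : (s - 1) * (s + 1) = u := by
      have : (s - 1) * (s + 1) = s ^ 2 - 1 := by ring
      rw [this, hs2]; ring
    have h1 : 1 ≤ ‖s + 1‖ := by
      refine le_trans ?_ (Complex.abs_re_le_norm _)
      rw [Complex.add_re, Complex.one_re, abs_of_pos (by linarith)]
      linarith
    have h2 : ‖s - 1‖ * ‖s + 1‖ = ‖u‖ := by rw [← norm_mul, e1]
    have h3 : ‖s - 1‖ ≤ ‖u‖ := by nlinarith [norm_nonneg (s - 1)]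
    have h4 : 2 - ‖s - 1‖ ≤ ‖s + 1‖ := by
      have : ‖(2 : ℂ)‖ ≤ ‖s + 1‖ + ‖s - 1‖ := by
        have e2 : (2 : ℂ) = (s + 1) - (s - 1) := by ring
        calc ‖(2 : ℂ)‖ = ‖(s + 1) - (s - 1)‖ := by rw [← e2]
          _ ≤ _ := norm_sub_le _ _
      rw [Complex.norm_ofNat] at this
      linarith
    rw [le_div_iff₀ (by linarith)]
    nlinarith [norm_nonneg (s - 1)]
  have e2 : Q * s - Q = Q * (s - 1) := by ring
  rw [e2, norm_mul]
  have h5 : ‖u‖ / (2 - ‖u‖) ≤ (2 * E0 / ‖Q‖) / (2 - 2 * E0 / ‖Q‖) := by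
    rw [div_le_div_iff₀ (by linarith) (by linarith)]
    nlinarith [norm_nonneg u]
  have h6 : ‖Q‖ * ((2 * E0 / ‖Q‖) / (2 - 2 * E0 / ‖Q‖)) = E0 / (1 - E0 / ‖Q‖) := by
    have h7 : (2 : ℝ) - 2 * E0 / ‖Q‖ ≠ 0 := by linarith
    have h8 : 1 - E0 / ‖Q‖ = (2 - 2 * E0 / ‖Q‖) / 2 := by ring
    rw [h8]
    field_simp
  calc ‖Q‖ * ‖s - 1‖ ≤ ‖Q‖ * ((2 * E0 / ‖Q‖) / (2 - 2 * E0 / ‖Q‖)) :=
        mul_le_mul_of_nonneg_left (hv.trans h5) hQn.le
    _ = _ := h6

end Pool.Agent.helper63.FF
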