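import Pool.Agent.helper12.FF.Struct
import Pool.Agent.helper12.FF.Harn2
import Pool.Agent.helper63.FF.Lg

/-!
# Far field: the conditions per point from number hypotheses
-/

namespace Pool.Agent.helper63.FF

open Complex ComplexConjugate Set Pool.Agent.helper31.EQ.Y Pool.Agent.helper31.EQ.R
open Pool.Agent.helper12.EQL Pool.Agent.helper12.RP Pool.Agent.helper12.FF

variable {e κ : ℝ}

/-- the deviation of the radicand -/
noncomputable def Dl (κ : ℝ) (Q a b : ℂ) : ℂ :=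
  -((Q - (Real.exp κ : ℂ)) ^ 2 * (Q - (Real.exp (-(2 * κ)) : ℂ))) +
    (exp a - 1) * (Q * (1 - (2 * (Real.cosh κ : ℂ) - Q) ^ 2)) +
    (1 - (Real.exp (-κ) : ℂ)) ^ 2 * Q * (Q * (exp (2 * a + 2 * b) - 1) + (exp (a + 2 * b) - 1))

/-- the bound of `Dl` -/
noncomputable def DlB (κ : ℝ) (Q : ℂ) (L1 L2 : ℝ) : ℝ :=
  ‖Q - (Real.exp κ : ℂ)‖ ^ 2 * ‖Q - (Real.exp (-(2 * κ)) : ℂ)‖ +
    (Real.exp L1 - 1) * (‖Q‖ * ‖1 - (2 * (Real.cosh κ : ℂ) - Q) ^ 2‖) +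
    (1 - Real.exp (-κ)) ^ 2 * ‖Q‖ * (‖Q‖ * (Real.exp (2 * L1 + 2 * L2) - 1) +
      (Real.exp (L1 + 2 * L2) - 1))

theorem Dl_le (hκ : 0 < κ) {Q a b : ℂ} {L1 L2 : ℝ} (ha : ‖a‖ ≤ L1) (hb : ‖b‖ ≤ L2) :
    ‖Dl κ Q a b‖ ≤ DlB κ Q L1 L2 := by
  have h0 : Real.exp (-κ) < 1 := by rw [Real.exp_lt_one_iff]; linarith
  have h1 := norm_exp_sub_one ha
  have h2 : ‖exp (2 * a + 2 * b) - 1‖ ≤ Real.exp (2 * L1 + 2 * L2) - 1 := by
    apply norm_exp_sub_one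
    refine (norm_add_le _ _).trans ?_
    rw [norm_mul, norm_mul, Complex.norm_ofNat]
    linarith
  have h3 : ‖exp (a + 2 * b) - 1‖ ≤ Real.exp (L1 + 2 * L2) - 1 := by
    apply norm_exp_sub_one
    refine (norm_add_le _ _).trans ?_
    rw [norm_mul, Complex.norm_ofNat]
    linarith
  have h4 : ‖(1 - (Real.exp (-κ) : ℂ))‖ = 1 - Real.exp (-κ) := by
    rw [show (1 - (Real.exp (-κ) : ℂ)) = ((1 - Real.exp (-κ) : ℝ) : ℂ) by push_cast; ring,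
      Complex.norm_real, Real.norm_of_nonneg (by linarith)]
  unfold Dl DlB
  refine (norm_add₃_le).trans ?_
  have t1 : ‖-((Q - (Real.exp κ : ℂ)) ^ 2 * (Q - (Real.exp (-(2 * κ)) : ℂ)))‖ ≤
      ‖Q - (Real.exp κ : ℂ)‖ ^ 2 * ‖Q - (Real.exp (-(2 * κ)) : ℂ)‖ := by
    rw [norm_neg, norm_mul, norm_pow]
  have t2 : ‖(exp a - 1) * (Q * (1 - (2 * (Real.cosh κ : ℂ) - Q) ^ 2))‖ ≤
      (Real.exp L1 - 1) * (‖Q‖ * ‖1 - (2 * (Real.cosh κ : ℂ) - Q) ^ 2‖) := by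
    rw [norm_mul, norm_mul]
    exact mul_le_mul_of_nonneg_right h1 (by positivity)
  have t3 : ‖(1 - (Real.exp (-κ) : ℂ)) ^ 2 * Q *
      (Q * (exp (2 * a + 2 * b) - 1) + (exp (a + 2 * b) - 1))‖ ≤
      (1 - Real.exp (-κ)) ^ 2 * ‖Q‖ * (‖Q‖ * (Real.exp (2 * L1 + 2 * L2) - 1) +
      (Real.exp (L1 + 2 * L2) - 1)) := by
    rw [norm_mul, norm_mul, norm_pow, h4]
    refine mul_le_mul_of_nonneg_left ?_ (by positivity)
    refine (norm_add_le _ _).trans ?_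
    rw [norm_mul]
    exact add_le_add (mul_le_mul_of_nonneg_left h2 (norm_nonneg _)) h3
  linarith

/-- the exact radicand of the plain scheme -/
theorem rd_eq (he : 0 < e) (hκ : 0 < κ) {τ χ : ℂ} (hτ : 0 < τ.re) (hχ : ‖χ‖ < 1) :
    rd e κ τ χ = Qn κ τ ^ 2 + Dl κ (Qn κ τ)
      ((LF e κ (shf κ τ) χ - Lg e κ (shf κ τ) χ) / e) (l2 e κ (shf κ τ) χ) := by
  have h1 := radF_eq he hκ (τ := τ) (t := shf κ τ) (χ := χ) hτ (shf_re hκ hτ.le) hχ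
  have h2 : l1 e κ (Qk κ (shf κ τ)) (Qn κ τ) (shf κ τ) χ =
      (LF e κ (shf κ τ) χ - Lg e κ (shf κ τ) χ) / e := by
    unfold l1 Qn
    ring
  rw [h2] at h1
  unfold rd cC cv
  rw [h1]
  unfold Q2c Dl
  ring

/-- bounds of the two exponents -/
theorem a_le (he : 0 < e) (hκ : 0 < κ) {s χ : ℂ} (hs : 0 < s.re) {X ls n1 : ℝ} (hχ : ‖χ‖ ≤ X)
    (hX : X < 1) (hls : ‖log (fT e κ s) - log (fT e κ (shf κ s))‖ ≤ ls)
    (hn1 : ‖1 + qq e κ s‖ ≤ n1) :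
    ‖(LF e κ s χ - Lg e κ s χ) / e‖ ≤ (ls + n1 * (X / (1 - X))) / e := by
  have hq := (qq_lt_one he hκ hs).le
  have h1 := H7a hq hχ hX
  have hX0 : 0 ≤ X := (norm_nonneg _).trans hχ
  rw [norm_div, Complex.norm_real, Real.norm_of_nonneg he.le]
  refine div_le_div_of_nonneg_right ?_ he.le
  unfold LF Lg
  have e1 : log (fT e κ s) + log (1 + qq e κ s * χ) - (log (fT e κ (shf κ s)) + log (1 - χ)) =
      (log (fT e κ s) - log (fT e κ (shf κ s))) + (log (1 + qq e κ s * χ) - log (1 - χ)) := by ring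
  rw [e1]
  refine (norm_add_le _ _).trans (add_le_add hls (h1.trans ?_))
  refine mul_le_mul_of_nonneg_right hn1 ?_
  have : 0 < 1 - X := by linarith
  positivity

theorem b_le (he : 0 < e) {s χ : ℂ} {X lf nq : ℝ} (hχ : ‖χ‖ ≤ X)
    (hlf : ‖log (fT e κ s) - log (fT e κ 1)‖ ≤ lf) (hnq : ‖qq e κ s‖ ≤ nq) (hX : nq * X < 1) :
    ‖l2 e κ s χ‖ ≤ (lf + nq * X / (1 - nq * X)) / e := by
  have hX0 : 0 ≤ X := (norm_nonneg _).trans hχ
  have h0 : ‖qq e κ s‖ * X ≤ nq * X := mul_le_mul_of_nonneg_right hnq hX0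
  have h1 := H7b hχ (lt_of_le_of_lt h0 hX)
  have h2 : ‖qq e κ s‖ * X / (1 - ‖qq e κ s‖ * X) ≤ nq * X / (1 - nq * X) := by
    rw [div_le_div_iff₀ (by linarith) (by linarith)]
    nlinarith
  unfold l2 LF
  rw [norm_div, Complex.norm_real, Real.norm_of_nonneg he.le]
  refine div_le_div_of_nonneg_right ?_ he.le
  have e1 : log (fT e κ 1) - (log (fT e κ s) + log (1 + qq e κ s * χ)) =
      -((log (fT e κ s) - log (fT e κ 1)) + log (1 + qq e κ s * χ)) := by ring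
  rw [e1, norm_neg]
  exact (norm_add_le _ _).trans (add_le_add hlf (h1.trans h2))

/-- `Qk (nxt) = √rd` -/
theorem Qk_nxt (hκ : 0 < κ) (τ χ : ℂ) : Qk κ (nxt e κ τ χ) = rd e κ τ χ ^ ((1 / 2 : ℝ) : ℂ) := by
  have hK : (Real.sinh κ : ℂ) ≠ 0 := by exact_mod_cast (Real.sinh_pos_iff.2 hκ).ne'
  have h1 : nxt e κ τ χ = (rd e κ τ χ ^ ((1 / 2 : ℝ) : ℂ) - (Real.cosh κ : ℂ)) / (Real.sinh κ : ℂ) := rfl
  rw [h1, Qk]
  field_simp
  ring

theorem Qk_sub (κ : ℝ) (a b : ℂ) : Qk κ a - Qk κ b = (Real.sinh κ : ℂ) * (a - b) := by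
  unfold Qk; ring

/-- geometry of the region -/
theorem reg_s (hκ : 0 < κ) {τ : ℂ} {R : ℝ} (hR : Real.exp (2 * κ) * R ≤ 1)
    (hτ : ‖τ - 1‖ < Real.exp (2 * κ) * R * ‖τ + 1‖) :
    0 < τ.re ∧ ‖shf κ τ - 1‖ < R * ‖shf κ τ + 1‖ := by
  have h1 := re_of_disc hR hτ
  refine ⟨h1, ?_⟩
  have h2 := rt_shf_eq hκ h1
  have h3 := add_one_pos h1
  have h4 := add_one_pos (shf_re hκ h1.le)
  have h5 : rt τ < Real.exp (2 * κ) * R := by
    unfold rt; rw [div_lt_iff₀ h3]; exact hτ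
  have h6 : rt (shf κ τ) < R := by
    rw [h2]
    have h7 := mul_lt_mul_of_pos_left h5 (Real.exp_pos (-(2 * κ)))
    have h8 : Real.exp (-(2 * κ)) * (Real.exp (2 * κ) * R) = R := by
      rw [← mul_assoc, ← Real.exp_add]; simp
    linarith
  unfold rt at h6
  rwa [div_lt_iff₀ h4] at h6

/-- small argument of `Q` -/
theorem Q_arg (hκ : 0 < κ) {s : ℂ} {R : ℝ} (hR : Real.exp (2 * κ) * R ≤ 1) (hs0 : 0 < s.re)
    (hs : ‖s - 1‖ < R * ‖s + 1‖) : |(Qk κ s).im| ≤ (Qk κ s).re ∧ 0 < (Qk κ s).re := by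
  have hK : 0 < Real.sinh κ := Real.sinh_pos_iff.2 hκ
  have hC := Real.one_le_cosh κ
  have hR0 : 0 < R := by
    by_contra h
    push Not at h
    have := mul_nonpos_of_nonpos_of_nonneg h (norm_nonneg (s + 1))
    linarith [norm_nonneg (s - 1)]
  have h1 : ‖s - 1‖ ^ 2 < R ^ 2 * ‖s + 1‖ ^ 2 := by
    rw [← mul_pow]; exact pow_lt_pow_left₀ hs (norm_nonneg _) two_ne_zero
  have n1 : ‖s - 1‖ ^ 2 = s.re ^ 2 + s.im ^ 2 - 2 * s.re + 1 := by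
    rw [← Complex.normSq_eq_norm_sq, Complex.normSq_apply]; simp; ring
  have n2 : ‖s + 1‖ ^ 2 = s.re ^ 2 + s.im ^ 2 + 2 * s.re + 1 := by
    rw [← Complex.normSq_eq_norm_sq, Complex.normSq_apply]; simp; ring
  rw [n1, n2] at h1
  have hm : 1 ≤ Real.exp (2 * κ) := Real.one_le_exp (by linarith)
  have hR1 : R ≤ 1 := by nlinarith
  -- sinh κ * R ≤ 1/2 * (1 - R²) : from exp(2κ) R ≤ 1
  have h3 : 4 * Real.sinh κ * R ≤ 1 - R ^ 2 + 2 * Real.sinh κ * R := by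
    -- 2 sinh κ ≤ 2 sinh (2κ)  ≤ ..: exp(2κ) - exp(-2κ) ≤ 1/R - R
    have hk : Real.exp (2 * κ) = (Real.cosh κ + Real.sinh κ) ^ 2 := by
      rw [Real.cosh_add_sinh, ← Real.exp_nat_mul]; congr 1
    have hcs := Real.cosh_sq κ
    set c := Real.cosh κ
    set k := Real.sinh κ
    have e1 : (c + k) ^ 2 = 1 + 2 * k ^ 2 + 2 * c * k := by nlinarith
    rw [hk, e1] at hR
    -- (1 + 2k² + 2ck) R ≤ 1
    have h4 : (1 + 2 * k) * R ≤ 1 := by nlinarith [mul_pos hR0 hK, sq_nonneg k]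
    nlinarith [mul_pos hR0 hK, mul_nonneg hR0.le (by linarith : 0 ≤ 1 - R)]
  have hre : (Qk κ s).re = Real.cosh κ + Real.sinh κ * s.re := by
    unfold Qk; rw [Complex.add_re, Complex.ofReal_re, Complex.re_ofReal_mul]
  have him : (Qk κ s).im = Real.sinh κ * s.im := by
    unfold Qk; rw [Complex.add_im, Complex.ofReal_im, Complex.im_ofReal_mul, zero_add]
  have hpos : 0 < (Qk κ s).re := by rw [hre]; nlinarith
  refine ⟨?_, hpos⟩
  rw [hre, him, abs_mul, abs_of_pos hK]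
  -- (1-R²)(x²+y²+1) < 2(1+R²) x ; want K|y| ≤ C + K x
  by_contra hcon
  push Not at hcon
  have hy : 1 < Real.sinh κ * |s.im| := by nlinarith
  have hRR : 0 < 1 - R ^ 2 := by
    by_contra h
    push Not at h
    have : R = 1 := by nlinarith
    rw [this] at hR
    have := Real.add_one_lt_exp (x := 2 * κ) (by linarith)
    linarith
  have h5 : (1 - R ^ 2) * (s.re ^ 2 + |s.im| ^ 2 + 1) < 2 * (1 + R ^ 2) * s.re := by
    rw [sq_abs]; nlinarith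
  have h6 : (1 - R ^ 2) * |s.im| ≤ 2 * R := by
    -- ((1-R²) x - (1+R²))² + (1-R²)² y² < 4R²
    have h7 : ((1 - R ^ 2) * |s.im|) ^ 2 ≤ (2 * R) ^ 2 := by
      have h8 : (1 - R ^ 2) * ((1 - R ^ 2) * (s.re ^ 2 + |s.im| ^ 2 + 1)) <
          (1 - R ^ 2) * (2 * (1 + R ^ 2) * s.re) := mul_lt_mul_of_pos_left h5 hRR
      nlinarith [sq_nonneg ((1 - R ^ 2) * s.re - (1 + R ^ 2))]
    exact abs_le_of_sq_le_sq' h7 (by positivity) |>.2
  have h7 : (1 - R ^ 2) < 2 * R * Real.sinh κ := by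
    have : (1 - R ^ 2) * 1 < (1 - R ^ 2) * (Real.sinh κ * |s.im|) := mul_lt_mul_of_pos_left hy hRR
    nlinarith
  linarith

/-- `shf t + 1 = m (t + 1)/Q t` -/
theorem shf_add_one (hκ : 0 < κ) {t : ℂ} (ht : 0 < t.re) :
    (shf κ t + 1) * Qk κ t = (Real.exp κ : ℂ) * (t + 1) := by
  have hd := shf_den hκ ht.le
  have hC0 : (Real.cosh κ : ℂ) ≠ 0 := by exact_mod_cast (Real.cosh_pos κ).ne'
  have hT : (Real.tanh κ : ℂ) = (Real.sinh κ : ℂ) / (Real.cosh κ : ℂ) := by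
    rw [Real.tanh_eq_sinh_div_cosh]; push_cast; rfl
  have hQ : Qk κ t = (Real.cosh κ : ℂ) * (1 + (Real.tanh κ : ℂ) * t) := by
    rw [Qk, hT]; field_simp
  have hm : (Real.exp κ : ℂ) = (Real.cosh κ : ℂ) * (1 + (Real.tanh κ : ℂ)) := by
    rw [hT, mul_add, mul_one, mul_div_cancel₀ _ hC0, ← Real.cosh_add_sinh]; push_cast; ring
  have e1 : shf κ t + 1 = (1 + (Real.tanh κ : ℂ)) * (t + 1) / (1 + (Real.tanh κ : ℂ) * t) := by
    rw [shf, div_add_one hd]; congr 1; ring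
  rw [e1, hQ, hm, div_mul_eq_mul_div, div_eq_iff hd]
  ring

set_option maxHeartbeats 4000000 in
/-- **FarPt from number hypotheses.** -/
theorem farPt_core (he : 0 < e) (hκ : 0 < κ) {θ w B R : ℝ} {E : Set ℂ} {τ : ℂ}
    (hR0 : 0 < R) (hB : 0 < B) (hw : 0 < w) (hw1 : w ≤ 1) (hR : Real.exp (2 * κ) * R < 1)
    (hτ : ‖τ - 1‖ < Real.exp (2 * κ) * R * ‖τ + 1‖)
    {X ls lf nq n1 L1 L2 E0 η ρ1 qp : ℝ}
    (hX : X = B * R / (1 - R) * ‖shf κ τ + 1‖) (hX1 : X < 1)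
    (hls : ‖log (fT e κ (shf κ τ)) - log (fT e κ (shf κ (shf κ τ)))‖ ≤ ls)
    (hlf : ‖log (fT e κ (shf κ τ)) - log (fT e κ 1)‖ ≤ lf)
    (hnq : ‖qq e κ (shf κ τ)‖ ≤ nq) (hnX : nq * X < 1) (hn1 : ‖1 + qq e κ (shf κ τ)‖ ≤ n1)
    (hL1 : (ls + n1 * (X / (1 - X))) / e ≤ L1) (hL2 : (lf + nq * X / (1 - nq * X)) / e ≤ L2)
    (hE0 : DlB κ (Qk κ (shf κ τ)) L1 L2 ≤ 2 * ‖Qk κ (shf κ τ)‖ * E0)
    (hE1 : 2 * E0 < ‖Qk κ (shf κ τ)‖)
    (hη : E0 / (1 - E0 / ‖Qk κ (shf κ τ)‖) ≤ η)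
    (hηS : η < Real.sinh κ * ‖shf κ τ + 1‖)
    (hinv : rt (shf κ τ) + 2 * Real.sinh κ * η /
      (Real.sinh κ * ‖shf κ τ + 1‖ * (Real.sinh κ * ‖shf κ τ + 1‖ - η)) <
      Real.exp (2 * κ) * (w * R))
    (hE : ∀ τ' : ℂ, 0 < τ'.re → Real.sinh κ * ‖τ' - shf κ τ‖ ≤ η → τ' ∈ E)
    (hρ : ∀ τ' : ℂ, 0 < τ'.re → Real.sinh κ * ‖τ' - shf κ τ‖ ≤ η → ‖R1 e κ τ τ' - 1‖ ≤ ρ1)
    (hqp : ∀ τ' : ℂ, 0 < τ'.re → Real.sinh κ * ‖τ' - shf κ τ‖ ≤ η → ‖qq e κ (shf κ τ')‖ ≤ qp)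
    (hηQ : η < ‖Qk κ (shf κ τ)‖)
    (hclose : ρ1 + (1 + ρ1) * qp * (B * (w * R) / (1 - w * R)) *
      (Real.exp κ * (Real.sinh κ * ‖shf κ τ + 1‖ + η) /
        (Real.sinh κ * (‖Qk κ (shf κ τ)‖ - η))) ≤ θ * X) :
    FarPt e κ θ w B R E τ := by
  have hm : 1 < Real.exp (2 * κ) := by rw [Real.one_lt_exp_iff]; linarith
  have hR1 : R < 1 := by nlinarith
  obtain ⟨hτ0, hs⟩ := reg_s hκ hR.le hτ
  have hs0 := shf_re hκ hτ0.le
  obtain ⟨hQi, hQr⟩ := Q_arg hκ hR.le hs0 hs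
  have hK : 0 < Real.sinh κ := Real.sinh_pos_iff.2 hκ
  set s := shf κ τ with hsd
  set Q := Qk κ s with hQd
  have hXn : ‖Xr κ B R τ‖ = X := by
    unfold Xr
    rw [norm_mul, Complex.norm_real, Real.norm_of_nonneg, ← hsd, hX]
    have : 0 < 1 - R := by linarith
    positivity
  have hX0 : 0 ≤ X := by rw [← hXn]; exact norm_nonneg _
  -- the radicand
  have key : ∀ χ : ℂ, ‖χ‖ ≤ X → rd e κ τ χ ∈ slitPlane ∧
      ‖Qk κ (nxt e κ τ χ) - Q‖ ≤ η := by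
    intro χ hχ
    have h1 := rd_eq he hκ (χ := χ) hτ0 (by linarith)
    have ha := a_le he hκ hs0 hχ hX1 hls hn1
    have hb := b_le he hχ hlf hnq hnX
    have hΔ := (Dl_le hκ (Q := Q) (ha.trans hL1) (hb.trans hL2)).trans hE0
    have hQn : Qn κ τ = Q := rfl
    rw [hQn, ← hsd] at h1
    obtain ⟨h2, h3⟩ := sqrt_near hQr hQi hΔ hE1
    rw [← h1] at h2 h3
    refine ⟨h2, ?_⟩
    rw [Qk_nxt hκ]
    exact h3.trans hη
  -- geometry of the next position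
  have hS1 := add_one_pos hs0
  have hS : 0 < Real.sinh κ * ‖s + 1‖ := mul_pos hK hS1
  have geo : ∀ χ : ℂ, ‖χ‖ ≤ X → Real.sinh κ * ‖nxt e κ τ χ - s‖ ≤ η ∧
      nxt e κ τ χ ∈ OmR κ (w * R) E ∧ 0 < (nxt e κ τ χ).re := by
    intro χ hχ
    have h1 := (key χ hχ).2
    rw [hQd, Qk_sub, norm_mul, Complex.norm_real, Real.norm_of_nonneg hK.le] at h1
    set t := nxt e κ τ χ with ht
    have h2 : 0 < Real.sinh κ * ‖t + 1‖ := by
      have h3 : Real.sinh κ * ‖s + 1‖ ≤ Real.sinh κ * ‖t + 1‖ + Real.sinh κ * ‖t - s‖ := by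
        rw [← mul_add]
        refine mul_le_mul_of_nonneg_left ?_ hK.le
        calc ‖s + 1‖ = ‖(t + 1) - (t - s)‖ := by congr 1; ring
          _ ≤ _ := norm_sub_le _ _
      linarith
    have h3 : Real.sinh κ * ‖s + 1‖ - η ≤ Real.sinh κ * ‖t + 1‖ := by
      have h4 : Real.sinh κ * ‖s + 1‖ ≤ Real.sinh κ * ‖t + 1‖ + Real.sinh κ * ‖t - s‖ := by
        rw [← mul_add]
        refine mul_le_mul_of_nonneg_left ?_ hK.le
        calc ‖s + 1‖ = ‖(t + 1) - (t - s)‖ := by congr 1; ring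
          _ ≤ _ := norm_sub_le _ _
      linarith
    have ht1 : 0 < ‖t + 1‖ := by
      by_contra h
      have : ‖t + 1‖ = 0 := le_antisymm (not_lt.1 h) (norm_nonneg _)
      rw [this, mul_zero] at h2
      exact lt_irrefl _ h2
    have ht0 : t + 1 ≠ 0 := norm_pos_iff.1 ht1
    have hs10 : s + 1 ≠ 0 := norm_pos_iff.1 hS1
    -- |t-1|/|t+1| ≤ rt s + 2|t - s|/(|s+1||t+1|)
    have h5 : ‖t - 1‖ ≤ rt s * ‖t + 1‖ + 2 * ‖t - s‖ / ‖s + 1‖ := by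
      have e1 : t - 1 = (s - 1) / (s + 1) * (t + 1) + 2 * (t - s) / (s + 1) := by
        field_simp; ring
      calc ‖t - 1‖ = ‖(s - 1) / (s + 1) * (t + 1) + 2 * (t - s) / (s + 1)‖ := by rw [← e1]
        _ ≤ ‖(s - 1) / (s + 1) * (t + 1)‖ + ‖2 * (t - s) / (s + 1)‖ := norm_add_le _ _
        _ = _ := by rw [norm_mul, norm_div, norm_div, norm_mul, Complex.norm_ofNat]; rfl
    have h6 : 2 * ‖t - s‖ / ‖s + 1‖ ≤ 2 * Real.sinh κ * η /
        (Real.sinh κ * ‖s + 1‖ * (Real.sinh κ * ‖s + 1‖ - η)) * ‖t + 1‖ := by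
      have hD : 0 < Real.sinh κ * ‖s + 1‖ - η := by linarith
      rw [div_mul_eq_mul_div, div_le_div_iff₀ hS1 (mul_pos hS hD)]
      have h7 : (Real.sinh κ * ‖t - s‖) * (Real.sinh κ * ‖s + 1‖ - η) ≤
          η * (Real.sinh κ * ‖t + 1‖) := mul_le_mul h1 h3 hD.le ((by positivity : (0:ℝ) ≤ Real.sinh κ * ‖t - s‖).trans h1)
      have h8 := mul_le_mul_of_nonneg_left h7 (by positivity : 0 ≤ 2 * ‖s + 1‖)
      nlinarith
    have h9 : ‖t - 1‖ < Real.exp (2 * κ) * (w * R) * ‖t + 1‖ := by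
      have h10 := mul_lt_mul_of_pos_right hinv ht1
      linarith
    have h11 : 0 < t.re := re_of_disc (by
      have : Real.exp (2 * κ) * (w * R) = w * (Real.exp (2 * κ) * R) := by ring
      rw [this]
      nlinarith [mul_pos (Real.exp_pos (2 * κ)) hR0]) h9
    exact ⟨h1, ⟨h9, hE t h11 h1⟩, h11⟩
  refine ⟨by rw [hXn]; exact hX1, ?_, ?_, ?_⟩
  · intro χ hχ
    rw [hXn] at hχ
    exact (key χ hχ).1
  · intro χ hχ
    rw [hXn] at hχ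
    exact (geo χ hχ).2.1
  · intro χ χ' hχ hχ'
    rw [hXn] at hχ ⊢
    obtain ⟨g1, g2, g3⟩ := geo χ hχ
    have k2 := (key χ hχ).2
    set t := nxt e κ τ χ with ht
    have r1 := hρ t g3 g1
    have r2 := hqp t g3 g1
    have hwR : w * R < 1 := by nlinarith
    have e1 : 1 - R1 e κ τ t * (1 + qq e κ (shf κ t) * χ') =
        -(R1 e κ τ t - 1) - R1 e κ τ t * qq e κ (shf κ t) * χ' := by ring
    rw [e1]
    refine (norm_sub_le _ _).trans ?_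
    rw [norm_neg, norm_mul, norm_mul]
    have r3 : ‖R1 e κ τ t‖ ≤ 1 + ρ1 := by
      have := norm_add_le (R1 e κ τ t - 1) 1
      rw [sub_add_cancel, norm_one] at this
      linarith
    have hρ0 : 0 ≤ ρ1 := (norm_nonneg _).trans r1
    have hqp0 : 0 ≤ qp := (norm_nonneg _).trans r2
    have hQt : ‖Q‖ - η ≤ ‖Qk κ t‖ := by
      have : ‖Q‖ ≤ ‖Qk κ t‖ + ‖Qk κ t - Q‖ := by
        calc ‖Q‖ = ‖Qk κ t - (Qk κ t - Q)‖ := by congr 1; ring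
          _ ≤ _ := norm_sub_le _ _
      linarith
    have hQt0 : 0 < ‖Qk κ t‖ := by linarith
    have r4 : ‖shf κ t + 1‖ ≤ Real.exp κ * (Real.sinh κ * ‖s + 1‖ + η) /
        (Real.sinh κ * (‖Q‖ - η)) := by
      have h1 := congrArg norm (shf_add_one hκ g3)
      rw [norm_mul, norm_mul, Complex.norm_real, Real.norm_of_nonneg (Real.exp_pos κ).le] at h1
      have h2 : Real.sinh κ * ‖t + 1‖ ≤ Real.sinh κ * ‖s + 1‖ + η := by
        have h3 : ‖t + 1‖ ≤ ‖s + 1‖ + ‖t - s‖ := by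
          calc ‖t + 1‖ = ‖(s + 1) + (t - s)‖ := by congr 1; ring
            _ ≤ _ := norm_add_le _ _
        have h4 := mul_le_mul_of_nonneg_left h3 hK.le
        linarith
      rw [le_div_iff₀ (mul_pos hK (by linarith))]
      have h5 : ‖shf κ t + 1‖ * (‖Q‖ - η) ≤ Real.exp κ * ‖t + 1‖ := by
        rw [← h1]
        exact mul_le_mul_of_nonneg_left hQt (norm_nonneg _)
      have h6 := mul_le_mul_of_nonneg_left h5 hK.le
      have h7 := mul_le_mul_of_nonneg_left h2 (Real.exp_pos κ).le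
      nlinarith
    have r5 : ‖χ'‖ ≤ (B * (w * R) / (1 - w * R)) * (Real.exp κ * (Real.sinh κ * ‖s + 1‖ + η) /
        (Real.sinh κ * (‖Q‖ - η))) := by
      refine hχ'.trans ?_
      unfold Xr
      have h1 : 0 ≤ B * (w * R) / (1 - w * R) := by
        have : 0 < 1 - w * R := by linarith
        positivity
      rw [norm_mul, Complex.norm_real, Real.norm_of_nonneg h1]
      exact mul_le_mul_of_nonneg_left r4 h1
    have r6 : ‖R1 e κ τ t‖ * ‖qq e κ (shf κ t)‖ ≤ (1 + ρ1) * qp :=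
      mul_le_mul r3 r2 (norm_nonneg _) (by linarith)
    have r7 := mul_le_mul r6 r5 (norm_nonneg _) (by positivity)
    linarith

end Pool.Agent.helper63.FF
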