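import Pool.Agent.helper12.RS.Entry

/-!
# Last closing to second order at the corner; entry
-/

namespace Pool.Agent.helper63.FF

open Complex ComplexConjugate Pool.Agent.helper31.EQ.Y Pool.Agent.helper31.EQ.R
open Pool.Agent.helper12.EQL Pool.Agent.helper12.RP Pool.Agent.helper12.FF Pool.Agent.helper12.RS

variable {e κ : ℝ}

/-- `‖(K t)² - K²‖ = K² ‖t - 1‖ ‖t + 1‖` -/
theorem norm_TK (t : ℂ) (κ : ℝ) : ‖(Qk κ t - (Real.cosh κ : ℂ)) ^ 2 - (Real.sinh κ : ℂ) ^ 2‖ =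
    Real.sinh κ ^ 2 * (‖t - 1‖ * ‖t + 1‖) := by
  have e1 : (Qk κ t - (Real.cosh κ : ℂ)) ^ 2 - (Real.sinh κ : ℂ) ^ 2 =
      (Real.sinh κ : ℂ) ^ 2 * ((t - 1) * (t + 1)) := by
    unfold Qk; ring
  rw [e1, norm_mul, norm_mul, norm_pow, Complex.norm_real, Real.norm_eq_abs, sq_abs]

/-- **key identity**: `h1 (|Q|² - 1) = 2 |T² - K²| (1 + h1/2)` -/
theorem h1_Q (hκ : 0 < κ) {t : ℂ} (ht : 0 < t.re) :
    h1 κ t * (‖Qk κ t‖ ^ 2 - 1) =
      2 * ‖(Qk κ t - (Real.cosh κ : ℂ)) ^ 2 - (Real.sinh κ : ℂ) ^ 2‖ * (1 + h1 κ t / 2) := by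
  rw [norm_TK]
  have hK : 0 < Real.sinh κ := Real.sinh_pos_iff.2 hκ
  have hCS := Real.cosh_sq κ
  have hk : Real.exp (-(2 * κ)) = (Real.cosh κ - Real.sinh κ) ^ 2 := by
    rw [Real.cosh_sub_sinh, ← Real.exp_nat_mul]; congr 1; push_cast; ring
  have h1p := add_one_pos ht
  have hr1 := rt_lt_one ht
  have hr0 := rt_nonneg t
  have hQ : ‖Qk κ t‖ ^ 2 = (Real.cosh κ + Real.sinh κ * t.re) ^ 2 + (Real.sinh κ * t.im) ^ 2 := by
    have h1 : (Qk κ t).re = Real.cosh κ + Real.sinh κ * t.re := by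
      unfold Qk; rw [Complex.add_re, Complex.ofReal_re, Complex.re_ofReal_mul]
    have h2 : (Qk κ t).im = Real.sinh κ * t.im := by
      unfold Qk; rw [Complex.add_im, Complex.ofReal_im, Complex.im_ofReal_mul, zero_add]
    rw [← Complex.normSq_eq_norm_sq, Complex.normSq_apply, h1, h2]; ring
  have n1 : ‖t - 1‖ ^ 2 = t.re ^ 2 + t.im ^ 2 - 2 * t.re + 1 := by
    rw [← Complex.normSq_eq_norm_sq, Complex.normSq_apply]; simp; ring
  have n2 : ‖t + 1‖ ^ 2 = t.re ^ 2 + t.im ^ 2 + 2 * t.re + 1 := by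
    rw [← Complex.normSq_eq_norm_sq, Complex.normSq_apply]; simp; ring
  have hk1 : Real.exp (-(2 * κ)) < 1 := by rw [Real.exp_lt_one_iff]; linarith
  have hk0 := Real.exp_pos (-(2 * κ))
  have hrt : ‖t - 1‖ = rt t * ‖t + 1‖ := by unfold rt; field_simp
  unfold h1
  rw [hQ]
  set r := rt t with hr
  set k := Real.exp (-(2 * κ)) with hkd
  set C := Real.cosh κ with hC
  set K := Real.sinh κ with hKd
  set x := t.re
  set y := t.im
  have hr' : 1 - r ≠ 0 := by linarith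
  have hkr' : 1 + k * r ≠ 0 := by positivity
  have hden : (1 - r) * (1 + k * r) ≠ 0 := mul_ne_zero hr' hkr'
  -- |Q|² - 1 = K/2 ((C+K)|t+1|² - (C-K)|t-1|²)
  have hQ1 : (C + K * x) ^ 2 + (K * y) ^ 2 - 1 =
      K / 2 * ((C + K) * ‖t + 1‖ ^ 2 - (C - K) * ‖t - 1‖ ^ 2) := by
    rw [n1, n2]; linear_combination hCS
  rw [hQ1, hrt]
  set s := ‖t + 1‖
  have hkk : k * (C + K) = C - K := by
    rw [hk]; linear_combination (C - K) * hCS
  have h2 : (1 + r) * (1 - k * r) / ((1 - r) * (1 + k * r)) - 1 =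
      2 * r * (1 - k) / ((1 - r) * (1 + k * r)) := by
    field_simp; ring
  have hKK : 2 * K = (1 - k) * (C + K) := by linear_combination hkk
  rw [h2]
  have h3 : 1 + 2 * r * (1 - k) / ((1 - r) * (1 + k * r)) / 2 =
      (1 - k * r ^ 2) / ((1 - r) * (1 + k * r)) := by
    field_simp; ring
  rw [h3, div_mul_eq_mul_div, mul_div_assoc', div_left_inj' hden]
  have h4 : (C + K) * s ^ 2 - (C - K) * (r * s) ^ 2 = (C + K) * s ^ 2 * (1 - k * r ^ 2) := by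
    rw [← hkk]; ring
  rw [h4]
  have h5 : 2 * r * (1 - k) * (K / 2 * ((C + K) * s ^ 2 * (1 - k * r ^ 2))) =
      r * K * s ^ 2 * (1 - k * r ^ 2) * ((1 - k) * (C + K)) := by ring
  rw [h5, ← hKK]
  ring

/-- `1 - |q|² ≤ e (|Q|² - 1)` -/
theorem one_sub_q_sq (he : 0 < e) {Q : ℂ} (hQ : Q ≠ 0) :
    1 - ‖Q ^ (-(e : ℂ))‖ ^ 2 ≤ e * (‖Q‖ ^ 2 - 1) := by
  have hn : 0 < ‖Q‖ := norm_pos_iff.2 hQ
  have e1 : (-(e : ℂ)) = ((-e : ℝ) : ℂ) := by push_cast; ring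
  rw [e1, Complex.norm_cpow_real, Real.rpow_def_of_pos hn, ← Real.exp_nat_mul]
  have h1 := Real.add_one_le_exp (((2 : ℕ) : ℝ) * (Real.log ‖Q‖ * -e))
  have h2 := Real.log_le_sub_one_of_pos (by positivity : 0 < ‖Q‖ ^ 2)
  rw [Real.log_pow] at h2
  push_cast at h1 h2 ⊢
  nlinarith

/-- **One term, second order at the corner.** -/
theorem fT_last2 (he : 0 < e) (hκ : 0 < κ) {t : ℂ} (ht : 0 < t.re) {σ : ℝ} (hσ : 1 ≤ σ)
    (h : rt t ≤ Real.exp (-(2 * (κ * σ)))) {q : ℂ} (hq : q = Qk κ t ^ (-(e : ℂ))) {B1 : ℝ}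
    (hB : ‖q‖ ≤ B1 * ‖1 + q‖) (hB1 : B1 < σ) :
    ‖fT e κ t - 1 / (1 + q)‖ ≤ (1 + 1 / (2 * σ)) / (1 - B1 / σ) * e *
      ‖(Qk κ t - (Real.cosh κ : ℂ)) ^ 2 - (Real.sinh κ : ℂ) ^ 2‖ * ‖q‖ / ‖1 + q‖ ^ 3 := by
  have hσ0 : 0 < σ := by linarith
  have hQ0 := Qk_ne hκ ht
  have hq00 : q ≠ 0 := by rw [hq, Ne, Complex.cpow_eq_zero_iff]; tauto
  have hqp : 0 < ‖q‖ := norm_pos_iff.2 hq00
  have ho : 0 < ‖1 + q‖ := by
    rcases (norm_nonneg (1 + q)).lt_or_eq with h1 | h1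
    · exact h1
    · rw [← h1, mul_zero] at hB
      linarith
  have h1q : 1 + q ≠ 0 := norm_pos_iff.1 ho
  have hh := h1_le_inv hκ ht hσ h
  have hH := H1 he hκ ht
  have hg := gR_pos he hκ ht
  have hadd := fT_add he hκ ht
  rw [← hq] at hadd
  have hQ1 := h1_Q hκ ht
  have hqs := one_sub_q_sq he hQ0
  rw [← hq] at hqs
  set TK := ‖(Qk κ t - (Real.cosh κ : ℂ)) ^ 2 - (Real.sinh κ : ℂ) ^ 2‖ with hTK
  have hTK0 : 0 ≤ TK := norm_nonneg _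
  have hh0 : 0 ≤ h1 κ t := by
    by_contra hc
    push Not at hc
    have := mul_neg_of_neg_of_pos hc hg
    linarith [norm_nonneg (fT e κ (shf κ t) - fT e κ t)]
  -- h1 (1 - |q|²) ≤ 2 e TK (1 + 1/(2σ))
  have k1 : h1 κ t * (1 - ‖q‖ ^ 2) ≤ 2 * e * TK * (1 + 1 / (2 * σ)) := by
    calc h1 κ t * (1 - ‖q‖ ^ 2) ≤ h1 κ t * (e * (‖Qk κ t‖ ^ 2 - 1)) :=
          mul_le_mul_of_nonneg_left hqs hh0
      _ = e * (2 * TK * (1 + h1 κ t / 2)) := by rw [← hQ1]; ring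
      _ ≤ e * (2 * TK * (1 + 1 / (2 * σ))) := by
          have : h1 κ t / 2 ≤ 1 / (2 * σ) := by
            rw [div_le_iff₀ two_pos]
            calc h1 κ t ≤ 1 / σ := hh
              _ = 1 / (2 * σ) * 2 := by field_simp
          gcongr
      _ = _ := by ring
  have e1 : fT e κ t - 1 / (1 + q) = -(q * (fT e κ (shf κ t) - fT e κ t)) / (1 + q) := by
    rw [eq_div_iff h1q, sub_mul, div_mul_cancel₀ _ h1q]
    linear_combination hadd
  have e2 : ‖fT e κ t - 1 / (1 + q)‖ ≤ ‖q‖ * (h1 κ t * gR e κ t) / ‖1 + q‖ := by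
    rw [e1, norm_div, norm_neg, norm_mul]
    exact div_le_div_of_nonneg_right (mul_le_mul_of_nonneg_left hH hqp.le) ho.le
  -- bound of g
  have e3 : gR e κ t ≤ (1 - ‖q‖ ^ 2) / (2 * ‖1 + q‖ ^ 2) + ‖q‖ * (h1 κ t * gR e κ t) / ‖1 + q‖ := by
    have f1 : gR e κ t = (fT e κ t - 1 / 2).re := by
      unfold gR
      simp
    have f2 : fT e κ t - 1 / 2 = (1 - q) / (2 * (1 + q)) + (fT e κ t - 1 / (1 + q)) := by
      field_simp
      ring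
    have f3 : ((1 - q) / (2 * (1 + q))).re = (1 - ‖q‖ ^ 2) / (2 * ‖1 + q‖ ^ 2) := by
      have g1 : (1 - q) / (2 * (1 + q)) = ((1 / (2 * ‖1 + q‖ ^ 2) : ℝ) : ℂ) *
          ((1 - q) * conj (1 + q)) := by
        have g2 : (1 + q) * conj (1 + q) = ((‖1 + q‖ ^ 2 : ℝ) : ℂ) := by
          rw [Complex.mul_conj, Complex.normSq_eq_norm_sq]
        have g3 : conj (1 + q) ≠ 0 := by rwa [Ne, map_eq_zero]
        have g4 : ((‖1 + q‖ ^ 2 : ℝ) : ℂ) ≠ 0 := by exact_mod_cast (by positivity : ‖1 + q‖ ^ 2 ≠ 0)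
        have g5 : ((1 / (2 * ‖1 + q‖ ^ 2) : ℝ) : ℂ) = 1 / (2 * ((‖1 + q‖ ^ 2 : ℝ) : ℂ)) := by
          push_cast; ring
        rw [g5, ← g2]
        field_simp
      rw [g1, Complex.re_ofReal_mul]
      have g6 : ((1 - q) * conj (1 + q)).re = 1 - ‖q‖ ^ 2 := by
        rw [← Complex.normSq_eq_norm_sq, Complex.normSq_apply]
        simp
        ring
      rw [g6]; ring
    rw [f1]
    calc (fT e κ t - 1 / 2).re = ((1 - q) / (2 * (1 + q))).re + (fT e κ t - 1 / (1 + q)).re := by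
          rw [f2, Complex.add_re]
      _ ≤ _ := by
          rw [f3]
          have := (Complex.re_le_norm (fT e κ t - 1 / (1 + q))).trans e2
          rw [f1] at this
          linarith
  have hB0 : 0 ≤ B1 := by
    by_contra hc
    push Not at hc
    have := mul_neg_of_neg_of_pos hc ho
    linarith
  have hden : 0 < 1 - B1 / σ := by rw [sub_pos, div_lt_one hσ0]; exact hB1
  -- |q| h1/|1+q| ≤ B1/σ
  have k2 : ‖q‖ * h1 κ t / ‖1 + q‖ ≤ B1 / σ := by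
    rw [div_le_div_iff₀ ho hσ0]
    calc ‖q‖ * h1 κ t * σ ≤ ‖q‖ * (1 / σ) * σ := by gcongr
      _ = ‖q‖ := by field_simp
      _ ≤ B1 * ‖1 + q‖ := hB
  have e4 : gR e κ t * (1 - B1 / σ) ≤ (1 - ‖q‖ ^ 2) / (2 * ‖1 + q‖ ^ 2) := by
    have f1 : ‖q‖ * (h1 κ t * gR e κ t) / ‖1 + q‖ = ‖q‖ * h1 κ t / ‖1 + q‖ * gR e κ t := by ring
    rw [f1] at e3
    have := mul_le_mul_of_nonneg_right k2 hg.le
    linarith
  have e5 : h1 κ t * gR e κ t ≤ 2 * e * TK * (1 + 1 / (2 * σ)) / (2 * ‖1 + q‖ ^ 2) /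
      (1 - B1 / σ) := by
    rw [le_div_iff₀ hden, le_div_iff₀ (by positivity)]
    calc h1 κ t * gR e κ t * (1 - B1 / σ) * (2 * ‖1 + q‖ ^ 2)
        = h1 κ t * (gR e κ t * (1 - B1 / σ) * (2 * ‖1 + q‖ ^ 2)) := by ring
      _ ≤ h1 κ t * ((1 - ‖q‖ ^ 2) / (2 * ‖1 + q‖ ^ 2) * (2 * ‖1 + q‖ ^ 2)) := by gcongr
      _ = h1 κ t * (1 - ‖q‖ ^ 2) := by rw [div_mul_cancel₀ _ (by positivity)]
      _ ≤ _ := k1
  calc ‖fT e κ t - 1 / (1 + q)‖ ≤ ‖q‖ * (h1 κ t * gR e κ t) / ‖1 + q‖ := e2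
    _ ≤ ‖q‖ * (2 * e * TK * (1 + 1 / (2 * σ)) / (2 * ‖1 + q‖ ^ 2) / (1 - B1 / σ)) / ‖1 + q‖ := by
        gcongr
    _ = _ := by field_simp

/-! ### the last closing -/

/-- `2 cosh κ - 1/Q` -/
noncomputable def Qnx (κ : ℝ) (Q : ℂ) : ℂ := 2 * (Real.cosh κ : ℂ) - Q⁻¹

/-- the constant of the last closing at the position `x0` -/
noncomputable def C2 (x0 B1 : ℝ) : ℝ := (1 + 1 / (2 * (x0 + 2))) / (1 - B1 / (x0 + 2))

/-- **Last closing**, exact form with one unknown number `f2`. -/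
theorem last_form (he : 0 < e) (hκ : 0 < κ) {Q : ℂ} (hQ : Real.cosh κ < Q.re) {x0 : ℝ}
    (hx0 : 0 ≤ x0) (hent : ‖tQ κ Q - 1‖ < Real.exp (-(2 * κ * x0)) * ‖tQ κ Q + 1‖)
    {q2 q3 : ℂ} (h2 : q2 = exp (-((e : ℂ) * log (Qnx κ Q))))
    (h3 : q3 = exp (-((e : ℂ) * log (Qnx κ (Qnx κ Q))))) {B1 : ℝ}
    (hB : ‖q3‖ ≤ B1 * ‖1 + q3‖) (hB1 : B1 < x0 + 2) :
    ∃ f2 : ℂ, ‖f2 - 1 / (1 + q3)‖ ≤ C2 x0 B1 * e *
        ‖(Qnx κ (Qnx κ Q) - (Real.cosh κ : ℂ)) ^ 2 - (Real.sinh κ : ℂ) ^ 2‖ * ‖q3‖ / ‖1 + q3‖ ^ 3 ∧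
      ∀ χ : ℂ, (1 - fT e κ (tQ κ Q)) * (1 + qq e κ (shf κ (tQ κ Q)) * χ) =
        exp (-((e : ℂ) * log Q)) * (1 - q2 * f2 * (1 - χ)) := by
  have ht := tQ_re hκ hQ
  set τ := tQ κ Q with hτ
  have hs := shf_re hκ ht.le
  have hu := shf_re hκ hs.le
  have hQτ : Qk κ τ = Q := Qk_tQ hκ Q
  have hQs : Qk κ (shf κ τ) = Qnx κ Q := by rw [Qk_shf hκ ht, hQτ]; rfl
  have hQu : Qk κ (shf κ (shf κ τ)) = Qnx κ (Qnx κ Q) := by rw [Qk_shf hκ hs, hQs]; rfl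
  have n0 : Q ≠ 0 := by rw [← hQτ]; exact Qk_ne hκ ht
  have n1 : Qnx κ Q ≠ 0 := by rw [← hQs]; exact Qk_ne hκ hs
  have n2 : Qnx κ (Qnx κ Q) ≠ 0 := by rw [← hQu]; exact Qk_ne hκ hu
  have c0 : Qk κ τ ^ (-(e : ℂ)) = exp (-((e : ℂ) * log Q)) := by
    rw [hQτ, Complex.cpow_def_of_ne_zero n0]; congr 1; ring
  have c2 : q2 = Qk κ (shf κ τ) ^ (-(e : ℂ)) := by
    rw [h2, hQs, Complex.cpow_def_of_ne_zero n1]; congr 1; ring
  have c3 : q3 = Qk κ (shf κ (shf κ τ)) ^ (-(e : ℂ)) := by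
    rw [h3, hQu, Complex.cpow_def_of_ne_zero n2]; congr 1; ring
  have hr : rt τ ≤ Real.exp (-(2 * (κ * x0))) := by
    unfold rt
    rw [div_le_iff₀ (add_one_pos ht)]
    rw [show 2 * (κ * x0) = 2 * κ * x0 by ring]
    exact hent.le
  have r1 := rt_shf_le hκ ht hr
  have r2 := rt_shf_le hκ hs r1
  rw [show x0 + 1 + 1 = x0 + 2 by ring] at r2
  have hl := fT_last2 he hκ hu (σ := x0 + 2) (by linarith) r2 c3 hB hB1
  rw [hQu] at hl
  refine ⟨fT e κ (shf κ (shf κ τ)), hl, ?_⟩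
  intro χ
  have a1 := one_sub_fT he hκ ht
  have a2 := one_sub_fT he hκ hs
  have hf0 := fT_ne he hκ hs
  have a3 : fT e κ (shf κ τ) * (1 + qq e κ (shf κ τ) * χ) =
      1 - q2 * fT e κ (shf κ (shf κ τ)) * (1 - χ) := by
    rw [c2, ← a2]
    unfold qq
    field_simp
    ring
  rw [a1, c0, mul_assoc, a3]

/-- the same for the value `exp C`, `Q = √S` -/
theorem last_form_S (he : 0 < e) (hκ : 0 < κ) {S : ℂ} (hS : S ∈ slitPlane)
    (hQ : Real.cosh κ < (S ^ ((1 / 2 : ℝ) : ℂ)).re) {x0 : ℝ} (hx0 : 0 ≤ x0)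
    (hent : ‖tQ κ (S ^ ((1 / 2 : ℝ) : ℂ)) - 1‖ < Real.exp (-(2 * κ * x0)) *
      ‖tQ κ (S ^ ((1 / 2 : ℝ) : ℂ)) + 1‖)
    {q2 q3 : ℂ} (h2 : q2 = exp (-((e : ℂ) * log (Qnx κ (S ^ ((1 / 2 : ℝ) : ℂ))))))
    (h3 : q3 = exp (-((e : ℂ) * log (Qnx κ (Qnx κ (S ^ ((1 / 2 : ℝ) : ℂ))))))) {B1 : ℝ}
    (hB : ‖q3‖ ≤ B1 * ‖1 + q3‖) (hB1 : B1 < x0 + 2) (l : ℂ) :
    ∃ f2 : ℂ, ‖f2 - 1 / (1 + q3)‖ ≤ C2 x0 B1 * e *
        ‖(Qnx κ (Qnx κ (S ^ ((1 / 2 : ℝ) : ℂ))) - (Real.cosh κ : ℂ)) ^ 2 - (Real.sinh κ : ℂ) ^ 2‖ *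
          ‖q3‖ / ‖1 + q3‖ ^ 3 ∧
      ∀ χ : ℂ, exp (CL l) * ((1 - fT e κ (tQ κ (S ^ ((1 / 2 : ℝ) : ℂ)))) *
          (1 + qq e κ (shf κ (tQ κ (S ^ ((1 / 2 : ℝ) : ℂ)))) * χ)) =
        exp (CL l - (e : ℂ) / 2 * log S) * (1 - q2 * f2 * (1 - χ)) := by
  obtain ⟨f2, hf, h⟩ := last_form he hκ hQ hx0 hent h2 h3 hB hB1
  refine ⟨f2, hf, fun χ => ?_⟩
  have hS0 := slitPlane_ne_zero hS
  have hlog : log (S ^ ((1 / 2 : ℝ) : ℂ)) = (1 / 2 : ℂ) * log S := by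
    rw [Complex.cpow_def_of_ne_zero hS0]
    have h1 := Complex.arg_mem_Ioc S
    have e1 : (log S * ((1 / 2 : ℝ) : ℂ)).im = S.arg / 2 := by
      rw [mul_comm, Complex.im_ofReal_mul, Complex.log_im]; ring
    have hpi := Real.pi_pos
    rw [Complex.log_exp]
    · push_cast; ring
    · rw [e1]; linarith [h1.1]
    · rw [e1]; linarith [h1.2]
  rw [h χ, hlog, ← mul_assoc, ← Complex.exp_add]
  congr 2
  ring

/-! ### entry -/

/-- **Entry, first form** (`T = Q - cosh κ`). -/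
theorem entry_one (hκ : 0 < κ) {Q T : ℂ} (hT : T = Q - (Real.cosh κ : ℂ)) (hQ : 0 < T.re) {x0 : ℝ}
    (h : ‖(T - (Real.sinh κ : ℂ)) * (T + (Real.sinh κ : ℂ))⁻¹‖ * Real.exp (2 * κ * x0) < 1) :
    ‖tQ κ Q - 1‖ < Real.exp (-(2 * κ * x0)) * ‖tQ κ Q + 1‖ := by
  have hK : 0 < Real.sinh κ := Real.sinh_pos_iff.2 hκ
  have hK0 : (Real.sinh κ : ℂ) ≠ 0 := by exact_mod_cast hK.ne'
  have e1 : tQ κ Q - 1 = (T - (Real.sinh κ : ℂ)) / (Real.sinh κ : ℂ) := by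
    rw [hT, tQ]; field_simp
  have e2 : tQ κ Q + 1 = (T + (Real.sinh κ : ℂ)) / (Real.sinh κ : ℂ) := by
    rw [hT, tQ]; field_simp
  have hp : 0 < (T + (Real.sinh κ : ℂ)).re := by
    rw [Complex.add_re, Complex.ofReal_re]; linarith
  have hp0 : 0 < ‖T + (Real.sinh κ : ℂ)‖ := by
    rw [norm_pos_iff]; intro h0; rw [h0] at hp; simp at hp
  rw [e1, e2, norm_div, norm_div, Complex.norm_real, Real.norm_of_nonneg hK.le, mul_div_assoc',
    div_lt_div_iff_of_pos_right hK]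
  rw [norm_mul, norm_inv] at h
  have h1 : ‖T - (Real.sinh κ : ℂ)‖ * Real.exp (2 * κ * x0) < ‖T + (Real.sinh κ : ℂ)‖ := by
    have h2 : ‖T - (Real.sinh κ : ℂ)‖ * ‖T + (Real.sinh κ : ℂ)‖⁻¹ * Real.exp (2 * κ * x0) =
        ‖T - (Real.sinh κ : ℂ)‖ * Real.exp (2 * κ * x0) / ‖T + (Real.sinh κ : ℂ)‖ := by ring
    rw [h2, div_lt_one hp0] at h
    exact h
  have h3 := mul_lt_mul_of_pos_left h1 (Real.exp_pos (-(2 * κ * x0)))
  have h4 : Real.exp (-(2 * κ * x0)) * (‖T - (Real.sinh κ : ℂ)‖ * Real.exp (2 * κ * x0)) =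
      ‖T - (Real.sinh κ : ℂ)‖ := by
    rw [mul_comm ‖T - (Real.sinh κ : ℂ)‖, ← mul_assoc, ← Real.exp_add]; simp
  linarith

/-- **Entry, second form**: `0 < Re ((1 - T w)/(T - K² w))` with `tanh (κ x0)/K ≤ w`, `K w ≤ 1`. -/
theorem entry_two (hκ : 0 < κ) {Q T : ℂ} (hT : T = Q - (Real.cosh κ : ℂ)) (hQ : 0 < T.re) {x0 w : ℝ}
    (hx0 : 0 < x0) (hw : Real.tanh (κ * x0) ≤ Real.sinh κ * w) (hw1 : Real.sinh κ * w ≤ 1)
    (h : 0 < ((1 - T * (w : ℂ)) * (T - (Real.sinh κ : ℂ) ^ 2 * (w : ℂ))⁻¹).re) :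
    ‖tQ κ Q - 1‖ < Real.exp (-(2 * κ * x0)) * ‖tQ κ Q + 1‖ := by
  have hK : 0 < Real.sinh κ := Real.sinh_pos_iff.2 hκ
  have hy : 0 < κ * x0 := by positivity
  set K := Real.sinh κ with hKd
  set θ := Real.tanh (κ * x0) with hθ
  have hθ0 : 0 < θ := by
    rw [hθ, Real.tanh_eq_sinh_div_cosh]
    exact div_pos (Real.sinh_pos_iff.2 hy) (Real.cosh_pos _)
  have hθ1 : θ < 1 := by
    rw [hθ, Real.tanh_eq_sinh_div_cosh, div_lt_one (Real.cosh_pos _)]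
    exact Real.sinh_lt_cosh _
  have hw0 : 0 < w := by
    by_contra hc
    push Not at hc
    nlinarith
  -- Re[(1 - Tw) conj(T - K²w)] > 0
  have hden : (T - (K : ℂ) ^ 2 * (w : ℂ)) ≠ 0 := by
    intro h0
    rw [h0, inv_zero, mul_zero, Complex.zero_re] at h
    exact lt_irrefl _ h
  have hns := Complex.normSq_pos.2 hden
  have h1 : 0 < (1 + K ^ 2 * w ^ 2) * T.re - w * (T.re ^ 2 + T.im ^ 2 + K ^ 2) := by
    have e1 : ((1 - T * (w : ℂ)) * (T - (K : ℂ) ^ 2 * (w : ℂ))⁻¹).re =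
        ((1 + K ^ 2 * w ^ 2) * T.re - w * (T.re ^ 2 + T.im ^ 2 + K ^ 2)) /
          Complex.normSq (T - (K : ℂ) ^ 2 * (w : ℂ)) := by
      rw [Complex.mul_re, Complex.inv_re, Complex.inv_im]
      have g1 : (1 - T * (w : ℂ)).re = 1 - T.re * w := by simp
      have g2 : (1 - T * (w : ℂ)).im = -(T.im * w) := by simp
      have g3 : (T - (K : ℂ) ^ 2 * (w : ℂ)).re = T.re - K ^ 2 * w := by
        have : (K : ℂ) ^ 2 * (w : ℂ) = ((K ^ 2 * w : ℝ) : ℂ) := by push_cast; ring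
        rw [this, Complex.sub_re, Complex.ofReal_re]
      have g4 : (T - (K : ℂ) ^ 2 * (w : ℂ)).im = T.im := by
        have : (K : ℂ) ^ 2 * (w : ℂ) = ((K ^ 2 * w : ℝ) : ℂ) := by push_cast; ring
        rw [this, Complex.sub_im, Complex.ofReal_im, sub_zero]
      rw [g1, g2, g3, g4]
      field_simp
      ring
    rw [e1] at h
    exact (div_pos_iff_of_pos_right hns).1 h
  -- the same for w' = θ/K
  have h2 : θ * (T.re ^ 2 + T.im ^ 2 + K ^ 2) < K * (1 + θ ^ 2) * T.re := by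
    set N := T.re ^ 2 + T.im ^ 2 + K ^ 2
    have hN : 0 < N := by positivity
    -- w N < (1 + K² w²) T.re
    have h3 : w * N < (1 + (K * w) ^ 2) * T.re := by nlinarith
    -- θ (1 + (Kw)²) ≤ Kw (1 + θ²) : (Kw - θ)(1 - θ Kw) ≥ 0
    have h4 : θ * (1 + (K * w) ^ 2) ≤ K * w * (1 + θ ^ 2) := by
      nlinarith [mul_nonneg (by linarith : 0 ≤ K * w - θ) (by nlinarith : 0 ≤ 1 - θ * (K * w))]
    have h5 : w * (θ * N) < w * (K * (1 + θ ^ 2) * T.re) := by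
      calc w * (θ * N) = θ * (w * N) := by ring
        _ < θ * ((1 + (K * w) ^ 2) * T.re) := mul_lt_mul_of_pos_left h3 hθ0
        _ = (θ * (1 + (K * w) ^ 2)) * T.re := by ring
        _ ≤ (K * w * (1 + θ ^ 2)) * T.re := mul_le_mul_of_nonneg_right h4 hQ.le
        _ = _ := by ring
    exact lt_of_mul_lt_mul_left h5 hw0.le
  -- exp(-4 κ x0) = ((1-θ)/(1+θ))²
  have hE : Real.exp (-(2 * κ * x0)) = (1 - θ) / (1 + θ) := by
    have hc := Real.cosh_pos (κ * x0)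
    rw [hθ, Real.tanh_eq_sinh_div_cosh]
    have e1 : (1 - Real.sinh (κ * x0) / Real.cosh (κ * x0)) /
        (1 + Real.sinh (κ * x0) / Real.cosh (κ * x0)) =
        (Real.cosh (κ * x0) - Real.sinh (κ * x0)) / (Real.cosh (κ * x0) + Real.sinh (κ * x0)) := by
      field_simp
    rw [e1, Real.cosh_sub_sinh, Real.cosh_add_sinh, ← Real.exp_sub]
    congr 1; ring
  have hK0 : (K : ℂ) ≠ 0 := by exact_mod_cast hK.ne'
  have e1 : tQ κ Q - 1 = (T - (K : ℂ)) / (K : ℂ) := by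
    rw [hT, tQ, ← hKd]; field_simp
  have e2 : tQ κ Q + 1 = (T + (K : ℂ)) / (K : ℂ) := by
    rw [hT, tQ, ← hKd]; field_simp
  rw [e1, e2, norm_div, norm_div, Complex.norm_real, Real.norm_of_nonneg hK.le, mul_div_assoc',
    div_lt_div_iff_of_pos_right hK, hE, div_mul_eq_mul_div, lt_div_iff₀ (by linarith)]
  have n1 : ‖T - (K : ℂ)‖ ^ 2 = (T.re - K) ^ 2 + T.im ^ 2 := by
    rw [← Complex.normSq_eq_norm_sq, Complex.normSq_apply]; simp; ring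
  have n2 : ‖T + (K : ℂ)‖ ^ 2 = (T.re + K) ^ 2 + T.im ^ 2 := by
    rw [← Complex.normSq_eq_norm_sq, Complex.normSq_apply]; simp; ring
  have h6 : (‖T - (K : ℂ)‖ * (1 + θ)) ^ 2 < ((1 - θ) * ‖T + (K : ℂ)‖) ^ 2 := by
    rw [mul_pow, mul_pow, n1, n2]
    nlinarith
  exact lt_of_pow_lt_pow_left₀ 2 (mul_nonneg (by linarith) (norm_nonneg _)) h6

/-- `tanh y ≤ y - y³/3 + 2y⁵/15` for `y ≥ 0` -/
theorem tanh_le5 {y : ℝ} (hy : 0 ≤ y) : Real.tanh y ≤ y - y ^ 3 / 3 + 2 * y ^ 5 / 15 := by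
  have hd : ∀ y : ℝ, HasDerivAt Real.tanh (1 - Real.tanh y ^ 2) y := by
    intro y
    have h1 := (Real.hasDerivAt_sinh y).div (Real.hasDerivAt_cosh y) (Real.cosh_pos y).ne'
    have h2 : (fun y => Real.sinh y / Real.cosh y) = Real.tanh := by
      funext z; rw [Real.tanh_eq_sinh_div_cosh]
    have h3 : (Real.sinh / Real.cosh) = Real.tanh := by
      funext z; rw [Pi.div_apply, Real.tanh_eq_sinh_div_cosh]
    rw [h3] at h1
    refine h1.congr_deriv ?_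
    rw [Real.tanh_eq_sinh_div_cosh]
    have := (Real.cosh_pos y).ne'
    field_simp
  have mono : ∀ {f f' : ℝ → ℝ}, (∀ y, HasDerivAt f (f' y) y) → (∀ y, 0 ≤ y → 0 ≤ f' y) →
      ∀ y, 0 ≤ y → f 0 ≤ f y := by
    intro f f' h1 h2 y hy
    have : MonotoneOn f (Set.Ici 0) := by
      apply monotoneOn_of_deriv_nonneg (convex_Ici 0)
      · exact fun y _ => (h1 y).continuousAt.continuousWithinAt
      · exact fun y _ => (h1 y).differentiableAt.differentiableWithinAt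
      · intro y hy
        rw [interior_Ici] at hy
        rw [(h1 y).deriv]
        exact h2 y (le_of_lt hy)
    exact this (Set.mem_Ici.2 le_rfl) (Set.mem_Ici.2 hy) hy
  have t0 : ∀ y, 0 ≤ y → 0 ≤ Real.tanh y := by
    intro y hy
    have := mono hd (fun y _ => by
      have h1 : Real.tanh y ^ 2 < 1 := by
        rw [Real.tanh_eq_sinh_div_cosh, div_pow, div_lt_one (by positivity [Real.cosh_pos y])]
        have := Real.cosh_sq y
        linarith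
      linarith) y hy
    rwa [Real.tanh_zero] at this
  have t1 : ∀ y, 0 ≤ y → Real.tanh y ≤ y := by
    intro y hy
    have := mono (f := fun y => y - Real.tanh y) (f' := fun y => 1 - (1 - Real.tanh y ^ 2))
      (fun y => (hasDerivAt_id y).sub (hd y)) (fun y _ => by
        have := sq_nonneg (Real.tanh y); linarith) y hy
    simp only [Real.tanh_zero, sub_zero] at this
    linarith
  have t3 : ∀ y, 0 ≤ y → y - y ^ 3 / 3 ≤ Real.tanh y := by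
    intro y hy
    have := mono (f := fun y => Real.tanh y - (y - y ^ 3 / 3))
      (f' := fun y => (1 - Real.tanh y ^ 2) - (1 - y ^ 2))
      (fun y => by
        have h1 := (hasDerivAt_id y).sub ((hasDerivAt_pow 3 y).div_const 3)
        refine (hd y).sub (h1.congr_deriv ?_)
        push_cast; ring) (fun y hy => by
        have h1 := t1 y hy
        have h2 := t0 y hy
        nlinarith) y hy
    simp only [Real.tanh_zero] at this
    linarith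
  have := mono (f := fun y => (y - y ^ 3 / 3 + 2 * y ^ 5 / 15) - Real.tanh y)
    (f' := fun y => (1 - y ^ 2 + 2 * y ^ 4 / 3) - (1 - Real.tanh y ^ 2))
    (fun y => by
      have h1 := ((hasDerivAt_id y).sub ((hasDerivAt_pow 3 y).div_const 3)).add
        (((hasDerivAt_pow 5 y).const_mul 2).div_const 15)
      refine (h1.congr_deriv ?_).sub (hd y)
      push_cast; ring) (fun y hy => by
      have h1 := t3 y hy
      have h2 := t0 y hy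
      rcases le_total (y ^ 2) 3 with h3 | h3
      · have h4 : 0 ≤ y - y ^ 3 / 3 := by
          have : y - y ^ 3 / 3 = y * (3 - y ^ 2) / 3 := by ring
          rw [this]; have : 0 ≤ 3 - y ^ 2 := by linarith
          positivity
        have h5 : (y - y ^ 3 / 3) ^ 2 ≤ Real.tanh y ^ 2 := pow_le_pow_left₀ h4 h1 2
        have h6 : 0 ≤ y ^ 6 := by positivity
        nlinarith
      · have h4 : 0 ≤ Real.tanh y ^ 2 := sq_nonneg _
        have h5 : 0 ≤ y ^ 2 := sq_nonneg _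
        nlinarith) y hy
  simp only [Real.tanh_zero] at this
  linarith

/-- the number `w` of the program is large enough -/
theorem tanh_w (hκ : 0 < κ) {x0 : ℝ} (hx0 : 0 ≤ x0) : Real.tanh (κ * x0) ≤
    Real.sinh κ * (x0 * (1 - (κ * x0) ^ 2 / 3 + 2 * (κ * x0) ^ 4 / 15)) := by
  have hy : 0 ≤ κ * x0 := by positivity
  have h1 := tanh_le5 hy
  have h2 : κ ≤ Real.sinh κ := (Real.self_le_sinh_iff.2 hκ.le)
  have h3 : 0 ≤ x0 * (1 - (κ * x0) ^ 2 / 3 + 2 * (κ * x0) ^ 4 / 15) := by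
    have : 0 ≤ 1 - (κ * x0) ^ 2 / 3 + 2 * (κ * x0) ^ 4 / 15 := by nlinarith [sq_nonneg ((κ * x0) ^ 2 - 1)]
    positivity
  have h4 := mul_le_mul_of_nonneg_right h2 h3
  have h5 : κ * (x0 * (1 - (κ * x0) ^ 2 / 3 + 2 * (κ * x0) ^ 4 / 15)) =
      κ * x0 - (κ * x0) ^ 3 / 3 + 2 * (κ * x0) ^ 5 / 15 := by ring
  linarith

end Pool.Agent.helper63.FF
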