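import Pool.Agent.helper63.FF.Pt

/-!
# Far field: number bounds at one point
-/

namespace Pool.Agent.helper63.FF

open Complex ComplexConjugate Set Pool.Agent.helper31.EQ.Y Pool.Agent.helper31.EQ.R
open Pool.Agent.helper12.EQL Pool.Agent.helper12.RP Pool.Agent.helper12.FF

variable {e κ : ℝ}

/-- `shf z - shf w = (z - w)/(Q z Q w)` -/
theorem shf_sub (hκ : 0 < κ) {z w : ℂ} (hz : 0 < z.re) (hw : 0 < w.re) :
    (shf κ z - shf κ w) * (Qk κ z * Qk κ w) = z - w := by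
  have hd := shf_den hκ hz.le
  have hd' := shf_den hκ hw.le
  have hC0 : (Real.cosh κ : ℂ) ≠ 0 := by exact_mod_cast (Real.cosh_pos κ).ne'
  have hT : (Real.tanh κ : ℂ) = (Real.sinh κ : ℂ) / (Real.cosh κ : ℂ) := by
    rw [Real.tanh_eq_sinh_div_cosh]; push_cast; rfl
  have hQ : ∀ t : ℂ, Qk κ t = (Real.cosh κ : ℂ) * (1 + (Real.tanh κ : ℂ) * t) := by
    intro t; rw [Qk, hT]; field_simp
  have hcs : (Real.cosh κ : ℂ) ^ 2 * (1 - (Real.tanh κ : ℂ) ^ 2) = 1 := by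
    rw [hT, div_pow, mul_sub, mul_one, mul_div_cancel₀ _ (pow_ne_zero 2 hC0)]
    have := Real.cosh_sq κ
    have h2 : Real.cosh κ ^ 2 - Real.sinh κ ^ 2 = 1 := by linarith
    exact_mod_cast h2
  have e1 : shf κ z - shf κ w = (1 - (Real.tanh κ : ℂ) ^ 2) * (z - w) /
      ((1 + (Real.tanh κ : ℂ) * z) * (1 + (Real.tanh κ : ℂ) * w)) := by
    rw [shf, shf, div_sub_div _ _ hd hd']
    congr 1
    ring
  rw [e1, hQ z, hQ w, div_mul_eq_mul_div, div_eq_iff (mul_ne_zero hd hd')]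
  linear_combination ((z - w) * ((1 + (Real.tanh κ : ℂ) * z) * (1 + (Real.tanh κ : ℂ) * w))) * hcs

theorem Qk_near (hκ : 0 < κ) {z w : ℂ} {η : ℝ} (h : Real.sinh κ * ‖z - w‖ ≤ η) :
    ‖Qk κ z - Qk κ w‖ ≤ η ∧ ‖Qk κ w‖ - η ≤ ‖Qk κ z‖ := by
  have hK : 0 < Real.sinh κ := Real.sinh_pos_iff.2 hκ
  have h1 : ‖Qk κ z - Qk κ w‖ ≤ η := by
    rw [Qk_sub, norm_mul, Complex.norm_real, Real.norm_of_nonneg hK.le]; exact h
  refine ⟨h1, ?_⟩
  have : ‖Qk κ w‖ ≤ ‖Qk κ z‖ + ‖Qk κ z - Qk κ w‖ := by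
    calc ‖Qk κ w‖ = ‖Qk κ z - (Qk κ z - Qk κ w)‖ := by congr 1; ring
      _ ≤ _ := norm_sub_le _ _
  linarith

/-- displacement of the shifted points -/
theorem shf_disp (hκ : 0 < κ) {z w : ℂ} (hz : 0 < z.re) (hw : 0 < w.re) {η d : ℝ}
    (h : Real.sinh κ * ‖z - w‖ ≤ η) (hη : η < ‖Qk κ w‖)
    (hd : η ≤ d * (shf κ w).re * (Real.sinh κ * ‖Qk κ w‖ * (‖Qk κ w‖ - η))) :
    ‖shf κ z - shf κ w‖ ≤ d * (shf κ w).re := by
  have hK : 0 < Real.sinh κ := Real.sinh_pos_iff.2 hκ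
  obtain ⟨h1, h2⟩ := Qk_near hκ h
  have h3 := congrArg norm (shf_sub hκ hz hw)
  rw [norm_mul, norm_mul] at h3
  have hQw : 0 < ‖Qk κ w‖ := norm_pos_iff.2 (Qk_ne hκ hw)
  have hη0 : 0 ≤ η := (by positivity : (0:ℝ) ≤ Real.sinh κ * ‖z - w‖).trans h
  have hD : 0 < Real.sinh κ * ‖Qk κ w‖ * (‖Qk κ w‖ - η) := by
    have : 0 < ‖Qk κ w‖ - η := by linarith
    positivity
  have h4 : ‖shf κ z - shf κ w‖ * (Real.sinh κ * ‖Qk κ w‖ * (‖Qk κ w‖ - η)) ≤ η := by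
    have h5 : ‖shf κ z - shf κ w‖ * (Real.sinh κ * ‖Qk κ w‖ * (‖Qk κ w‖ - η)) ≤
        ‖shf κ z - shf κ w‖ * (Real.sinh κ * ‖Qk κ w‖ * ‖Qk κ z‖) := by gcongr
    have h6 : ‖shf κ z - shf κ w‖ * (Real.sinh κ * ‖Qk κ w‖ * ‖Qk κ z‖) = Real.sinh κ * ‖z - w‖ := by
      rw [← h3]; ring
    linarith
  have h7 : ‖shf κ z - shf κ w‖ * (Real.sinh κ * ‖Qk κ w‖ * (‖Qk κ w‖ - η)) ≤
      (d * (shf κ w).re) * (Real.sinh κ * ‖Qk κ w‖ * (‖Qk κ w‖ - η)) := by linarith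
  exact le_of_mul_le_mul_right h7 hD

/-- bound of `qq` at the shifted next position -/
theorem qp_le (he : 0 < e) (hκ : 0 < κ) {z s : ℂ} (hz : 0 < z.re) (hs : 0 < s.re)
    {η d P nq : ℝ} (h : Real.sinh κ * ‖z - s‖ ≤ η) (hη : η < ‖Qk κ s‖)
    (hd : η ≤ d * (shf κ s).re * (Real.sinh κ * ‖Qk κ s‖ * (‖Qk κ s‖ - η))) (hd1 : d < 1)
    (hP : (Pl e κ (shf κ s)).re ≤ P) (hnq : ‖qq e κ (shf κ s)‖ ≤ nq) :
    ‖qq e κ (shf κ z)‖ ≤ nq * Real.exp (d / (1 - d) * P) := by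
  have h1 := shf_disp hκ hz hs h hη hd
  have hs2 := shf_re hκ hs.le
  have hz2 := shf_re hκ hz.le
  have h2 := H6 he hκ hz2 hs2 h1 hd1
  have hd0 : 0 ≤ d := by
    by_contra hc
    push Not at hc
    have : d * (shf κ s).re < 0 := mul_neg_of_neg_of_pos hc hs2
    linarith [norm_nonneg (shf κ z - shf κ s)]
  have h3 : 0 ≤ d / (1 - d) := div_nonneg hd0 (by linarith)
  have h4 : ‖Pl e κ (shf κ z) - Pl e κ (shf κ s)‖ ≤ d / (1 - d) * P :=
    h2.trans (mul_le_mul_of_nonneg_left hP h3)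
  have e1 : ‖qq e κ (shf κ z)‖ = ‖qq e κ (shf κ s)‖ *
      Real.exp (-(Pl e κ (shf κ z) - Pl e κ (shf κ s)).re) := by
    rw [qq_exp he hκ hz2, qq_exp he hκ hs2, norm_exp, norm_exp, ← Real.exp_add]
    congr 1
    rw [neg_re, neg_re, sub_re]
    ring
  rw [e1]
  refine mul_le_mul hnq ?_ (Real.exp_pos _).le ((norm_nonneg _).trans hnq)
  apply Real.exp_le_exp.2
  have := (abs_le.1 (Complex.abs_re_le_norm (Pl e κ (shf κ z) - Pl e κ (shf κ s)))).1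
  linarith

/-- first bound of `R1 - 1` -/
theorem rho_O2 (he : 0 < e) (hκ : 0 < κ) {τ z : ℂ} (hτ : 0 < τ.re) (hz : 0 < z.re)
    {η d P f1 nq : ℝ} (h : Real.sinh κ * ‖z - shf κ τ‖ ≤ η)
    (hd : η ≤ d * (Real.sinh κ * (shf κ τ).re)) (hd1 : d < 1)
    (hP : (Pl e κ (shf κ τ)).re ≤ P) (hf : ‖fT e κ (shf κ τ)‖ ≤ f1)
    (hnq : ‖qq e κ (shf κ τ)‖ ≤ nq)
    (hlt : (Real.exp (d / (1 - d) * P) - 1) * f1 * nq < 1) :
    ‖R1 e κ τ z - 1‖ ≤ (Real.exp (d / (1 - d) * P) - 1) * f1 /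
      (1 - (Real.exp (d / (1 - d) * P) - 1) * f1 * nq) := by
  have hK : 0 < Real.sinh κ := Real.sinh_pos_iff.2 hκ
  have hs := shf_re hκ hτ.le
  set s := shf κ τ with hsd
  have h1 : ‖z - s‖ ≤ d * s.re := by
    have h2 : Real.sinh κ * ‖z - s‖ ≤ Real.sinh κ * (d * s.re) := by linarith
    exact le_of_mul_le_mul_left h2 hK
  have h2 := H6 he hκ hz hs h1 hd1
  have hd0 : 0 ≤ d := by
    by_contra hc
    push Not at hc
    have : d * s.re < 0 := mul_neg_of_neg_of_pos hc hs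
    linarith [norm_nonneg (z - s)]
  have h3 : 0 ≤ d / (1 - d) := div_nonneg hd0 (by linarith)
  have h4 : ‖Pl e κ s - Pl e κ z‖ ≤ d / (1 - d) * P := by
    rw [norm_sub_rev]
    exact h2.trans (mul_le_mul_of_nonneg_left hP h3)
  have h5 := norm_exp_sub_one h4
  obtain ⟨h6, h7⟩ := R1_eq he hκ hz hs (E := exp (Pl e κ s - Pl e κ z)) rfl
  have hR : R1 e κ τ z - 1 = (1 - fT e κ z) / (1 - fT e κ s) - 1 := rfl
  rw [hR, h6]
  set ep := Real.exp (d / (1 - d) * P) - 1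
  have hep0 : 0 ≤ ep := (norm_nonneg _).trans h5
  have hf0 := fT_ne he hκ hs
  have h8 : ‖1 - fT e κ s‖ = ‖fT e κ s‖ * ‖qq e κ s‖ := by
    rw [← norm_mul]
    congr 1
    unfold qq
    field_simp
  have h9 : ‖(exp (Pl e κ s - Pl e κ z) - 1) * (1 - fT e κ s)‖ ≤ ep * f1 * nq := by
    rw [norm_mul, h8]
    have := mul_le_mul hf hnq (norm_nonneg _) ((norm_nonneg _).trans hf)
    calc _ ≤ ep * (f1 * nq) := mul_le_mul h5 this (by positivity) hep0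
      _ = _ := by ring
  have h10 : 1 - ep * f1 * nq ≤ ‖1 + (exp (Pl e κ s - Pl e κ z) - 1) * (1 - fT e κ s)‖ := by
    have : ‖(1 : ℂ)‖ ≤ ‖1 + (exp (Pl e κ s - Pl e κ z) - 1) * (1 - fT e κ s)‖ +
        ‖(exp (Pl e κ s - Pl e κ z) - 1) * (1 - fT e κ s)‖ := by
      simpa using norm_sub_le (1 + (exp (Pl e κ s - Pl e κ z) - 1) * (1 - fT e κ s))
        ((exp (Pl e κ s - Pl e κ z) - 1) * (1 - fT e κ s))
    rw [norm_one] at this
    linarith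
  rw [norm_div, norm_mul]
  have h11 : 0 < 1 - ep * f1 * nq := by linarith
  have h12 : ‖exp (Pl e κ s - Pl e κ z) - 1‖ * ‖fT e κ s‖ ≤ ep * f1 :=
    mul_le_mul h5 hf (norm_nonneg _) hep0
  have h13 : 0 ≤ ep * f1 := (by positivity : (0:ℝ) ≤ ‖exp (Pl e κ s - Pl e κ z) - 1‖ * ‖fT e κ s‖).trans h12
  exact div_le_div₀ h13 h12 h11 h10

/-- second bound of `R1 - 1` -/
theorem rho_O1 (he : 0 < e) (hκ : 0 < κ) {τ z : ℂ} (hτ : 0 < τ.re) (hz : 0 < z.re)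
    {η d γ : ℝ} (h : Real.sinh κ * ‖z - shf κ τ‖ ≤ η) (hη : η < ‖Qk κ (shf κ τ)‖)
    (hd : η ≤ d * (shf κ (shf κ τ)).re * (Real.sinh κ * ‖Qk κ (shf κ τ)‖ *
      (‖Qk κ (shf κ τ)‖ - η))) (hd1 : d < 1)
    (hγ : gam e κ (shf κ (shf κ τ)) ≤ γ) (hlt : d / (1 - d) * γ < 1) :
    ‖R1 e κ τ z - 1‖ ≤ Real.exp (e * (-Real.log (1 - η / ‖Qk κ (shf κ τ)‖)) -
      Real.log (1 - d / (1 - d) * γ)) - 1 := by
  have hs := shf_re hκ hτ.le
  have hs2 := shf_re hκ hs.le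
  have hz2 := shf_re hκ hz.le
  set s := shf κ τ with hsd
  have h1 := shf_disp hκ hz hs h hη hd
  have hd0 : 0 ≤ d := by
    by_contra hc
    push Not at hc
    have : d * (shf κ s).re < 0 := mul_neg_of_neg_of_pos hc hs2
    linarith [norm_nonneg (shf κ z - shf κ s)]
  have h3 : 0 ≤ d / (1 - d) := div_nonneg hd0 (by linarith)
  have h4 := H4' he hκ hz2 hs2 h1 hd1
  have h5 := h4.trans (mul_le_mul_of_nonneg_left hγ h3)
  have hf1 := half_lt_re_fT he hκ hz2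
  have hf2 := half_lt_re_fT he hκ hs2
  have h6 := norm_log_sub_le (by linarith) (by linarith) h5 hlt
  obtain ⟨h7, h8⟩ := Qk_near hκ h
  have hQ0 : 0 < ‖Qk κ s‖ := norm_pos_iff.2 (Qk_ne hκ hs)
  have hQr : 0 < (Qk κ s).re := lt_of_lt_of_le (Real.cosh_pos κ) (Qk_re hκ hs.le)
  have hQr' : 0 < (Qk κ z).re := lt_of_lt_of_le (Real.cosh_pos κ) (Qk_re hκ hz.le)
  have h9 : ‖Qk κ z / Qk κ s - 1‖ ≤ η / ‖Qk κ s‖ := by
    have e1 : Qk κ z / Qk κ s - 1 = (Qk κ z - Qk κ s) / Qk κ s := by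
      have := Qk_ne hκ hs
      field_simp
    rw [e1, norm_div]
    exact div_le_div_of_nonneg_right h7 hQ0.le
  have h10 := norm_log_sub_le hQr' hQr h9 (by rw [div_lt_one hQ0]; exact hη)
  -- R1 as an exponential
  have e2 : R1 e κ τ z = exp (-(e : ℂ) * (log (Qk κ z) - log (Qk κ s)) +
      (log (fT e κ (shf κ z)) - log (fT e κ (shf κ s)))) := by
    have hQz0 := Qk_ne hκ hz
    have hQs0 := Qk_ne hκ hs
    have hfz := fT_ne he hκ hz2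
    have hfs := fT_ne he hκ hs2
    have e3 : R1 e κ τ z = (1 - fT e κ z) / (1 - fT e κ s) := rfl
    rw [e3, one_sub_fT he hκ hz, one_sub_fT he hκ hs, cpow_def_of_ne_zero hQz0,
      cpow_def_of_ne_zero hQs0]
    rw [show -(e : ℂ) * (log (Qk κ z) - log (Qk κ s)) +
      (log (fT e κ (shf κ z)) - log (fT e κ (shf κ s))) =
      (log (Qk κ z) * -(e : ℂ) + log (fT e κ (shf κ z))) -
      (log (Qk κ s) * -(e : ℂ) + log (fT e κ (shf κ s))) by ring, exp_sub, exp_add, exp_add,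
      exp_log hfz, exp_log hfs]
  rw [e2]
  refine norm_exp_sub_one ?_
  refine (norm_add_le _ _).trans ?_
  rw [norm_mul, norm_neg, Complex.norm_real, Real.norm_of_nonneg he.le]
  have := mul_le_mul_of_nonneg_left h10 he.le
  linarith

/-- `ls` -/
theorem ls_le (he : 0 < e) (hκ : 0 < κ) {t : ℂ} (ht : 0 < t.re) {c : ℝ}
    (hc : h1 κ t * gam e κ t ≤ c) (hc1 : c < 1) :
    ‖log (fT e κ t) - log (fT e κ (shf κ t))‖ ≤ -Real.log (1 - c) := by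
  have h := (H3 he hκ ht).trans hc
  have hf1 := half_lt_re_fT he hκ ht
  have hf2 := half_lt_re_fT he hκ (shf_re hκ ht.le)
  rw [norm_sub_rev]
  exact norm_log_sub_le (by linarith) (by linarith) h hc1

/-- `lf`, three forms -/
theorem lf_le1 (he : 0 < e) (hκ : 0 < κ) {t : ℂ} (ht : 0 < t.re) {c : ℝ}
    (hc : 2 * rt t / (1 - rt t) * (Real.tanh (e * κ / 2) / (1 + Real.tanh (e * κ / 2))) ≤ c)
    (hc1 : c < 1) : ‖log (fT e κ t) - log (fT e κ 1)‖ ≤ -Real.log (1 - c) := by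
  have h := (H5' he hκ ht).trans hc
  have hf1 := half_lt_re_fT he hκ ht
  have hf2 := half_lt_re_fT he hκ (τ := 1) (by simp)
  exact norm_log_sub_le (by linarith) (by linarith) h hc1

theorem lf_le2 (he : 0 < e) (hκ : 0 < κ) {t : ℂ} (ht : 0 < t.re) {c : ℝ}
    (hc : 2 * rt t / (1 - rt t) * gam e κ t ≤ c)
    (hc1 : c < 1) : ‖log (fT e κ t) - log (fT e κ 1)‖ ≤ -Real.log (1 - c) := by
  have h := (H5 he hκ ht).trans hc
  have hf1 := half_lt_re_fT he hκ ht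
  have hf2 := half_lt_re_fT he hκ (τ := 1) (by simp)
  rw [norm_sub_rev]
  exact norm_log_sub_le (by linarith) (by linarith) h hc1

theorem f_re_pos (he : 0 < e) (hκ : 0 < κ) : ∀ z : ℂ, 0 < z.re → 0 < (fT e κ z).re := by
  intro z hz
  have := half_lt_re_fT he hκ hz
  linarith

theorem lf_le3 (he : 0 < e) (hκ : 0 < κ) {t : ℂ} (ht : 0 < t.re) :
    ‖log (fT e κ t) - log (fT e κ 1)‖ ≤ Real.log ((1 + rt t) / (1 - rt t)) := by
  have h1 := halfPlane_pick (differentiableOn_fT he hκ) (f_re_pos he hκ) ht (w := 1) (by simp)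
  rw [fT_one he hκ, conj_ofReal, map_one] at h1
  rw [fT_one he hκ]
  have hv : 0 < 1 / (1 + Real.exp (-(e * κ))) := by positivity
  have h2 := add_one_pos ht
  refine norm_log_real (f_re_pos he hκ t ht) hv ?_ (rt_lt_one ht)
  unfold rt
  rw [div_mul_eq_mul_div, le_div_iff₀ h2]
  exact h1

/-- `‖1 + qq‖` -/
theorem n1_le {t : ℂ} {nq : ℝ}
    (hnq : ‖qq e κ t‖ ≤ nq) : ‖1 + qq e κ t‖ ≤ 1 + nq := by
  refine (norm_add_le _ _).trans ?_
  rw [norm_one]; linarith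

theorem n1_eq (he : 0 < e) (hκ : 0 < κ) {t : ℂ} (ht : 0 < t.re) :
    ‖1 + qq e κ t‖ * ‖fT e κ t‖ = 1 := by
  have hf := fT_ne he hκ ht
  rw [← norm_mul]
  have : (1 + qq e κ t) * fT e κ t = 1 := by unfold qq; field_simp; ring
  rw [this, norm_one]

theorem n1_le2 (he : 0 < e) (hκ : 0 < κ) {t : ℂ} (ht : 0 < t.re) : ‖1 + qq e κ t‖ < 2 := by
  have h1 := n1_eq he hκ ht
  have h2 := half_lt_re_fT he hκ ht
  have h3 := Complex.re_le_norm (fT e κ t)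
  have h4 : 1 / 2 < ‖fT e κ t‖ := by linarith
  have h5 : 0 < ‖1 + qq e κ t‖ := by
    by_contra h
    have : ‖1 + qq e κ t‖ = 0 := le_antisymm (not_lt.1 h) (norm_nonneg _)
    rw [this, zero_mul] at h1
    exact one_ne_zero h1.symm
  nlinarith

/-- monotone form of `gam_le` -/
theorem gam_of (he : 0 < e) (hκ : 0 < κ) {t : ℂ} (ht : 0 < t.re) {g0 : ℝ} (hg : gR e κ t ≤ g0) :
    gam e κ t ≤ g0 / (1 / 2 + g0) := by
  have h1 := gR_pos he hκ ht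
  refine (gam_le he hκ ht).trans ?_
  rw [div_le_div_iff₀ (by linarith) (by linarith)]
  nlinarith

end Pool.Agent.helper63.FF
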