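import Pool.Agent.helper63.FF.Pt

/-!
# Far field: variants of `farPt_core`
-/

namespace Pool.Agent.helper63.FF

open Complex ComplexConjugate Set Pool.Agent.helper31.EQ.Y Pool.Agent.helper31.EQ.R
open Pool.Agent.helper12.EQL Pool.Agent.helper12.RP Pool.Agent.helper12.FF

variable {e κ : ℝ}

set_option maxHeartbeats 4000000 in
/-- **FarPt from number hypotheses**, abstract bound of the deviation of the radicand. -/
theorem farPt_core0 (he : 0 < e) (hκ : 0 < κ) {θ w B R : ℝ} {E : Set ℂ} {τ : ℂ}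
    (hR0 : 0 < R) (hB : 0 < B) (hw : 0 < w) (hw1 : w ≤ 1) (hR : Real.exp (2 * κ) * R < 1)
    (hτ : ‖τ - 1‖ < Real.exp (2 * κ) * R * ‖τ + 1‖)
    {X DB E0 η ρ1 qp : ℝ}
    (hX : X = B * R / (1 - R) * ‖shf κ τ + 1‖) (hX1 : X < 1)
    (hDB : ∀ χ : ℂ, ‖χ‖ ≤ X → ‖Dl κ (Qk κ (shf κ τ))
      ((LF e κ (shf κ τ) χ - Lg e κ (shf κ τ) χ) / e) (l2 e κ (shf κ τ) χ)‖ ≤ DB)
    (hE0 : DB ≤ 2 * ‖Qk κ (shf κ τ)‖ * E0)
    (hE1 : 2 * E0 < ‖Qk κ (shf κ τ)‖)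
    (hη : E0 / (1 - E0 / ‖Qk κ (shf κ τ)‖) ≤ η)
    (hηS : η < Real.sinh κ * ‖shf κ τ + 1‖)
    (hinv : rt (shf κ τ) + 2 * Real.sinh κ * η /
      (Real.sinh κ * ‖shf κ τ + 1‖ * (Real.sinh κ * ‖shf κ τ + 1‖ - η)) <
      Real.exp (2 * κ) * (w * R))
    (hE : ∀ τ' : ℂ, 0 < τ'.re → Real.sinh κ * ‖τ' - shf κ τ‖ ≤ η → τ' ∈ E)
    (hρ : ∀ τ' : ℂ, 0 < τ'.re → Real.sinh κ * ‖τ' - shf κ τ‖ ≤ η → ‖R1 e κ τ τ' - 1‖ ≤ ρ1)
    (hqp : ∀ τ' : ℂ, 0 < τ'.re → Real.sinh κ * ‖τ' - shf κ τ‖ ≤ η → ‖qq e κ (shf κ τ')‖ ≤ qp)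
    (hηQ : η < ‖Qk κ (shf κ τ)‖)
    (hclose : ρ1 + (1 + ρ1) * qp * (B * (w * R) / (1 - w * R)) *
      (Real.exp κ * (Real.sinh κ * ‖shf κ τ + 1‖ + η) /
        (Real.sinh κ * (‖Qk κ (shf κ τ)‖ - η))) ≤ θ * X) :
    FarPt e κ θ w B R E τ := by
  have hm : 1 < Real.exp (2 * κ) := by rw [Real.one_lt_exp_iff]; linarith
  have hR1 : R < 1 := by nlinarith
  obtain ⟨hτ0, hs⟩ := reg_s hκ hR.le hτ
  have hs0 := shf_re hκ hτ0.le
  obtain ⟨hQi, hQr⟩ := Q_arg hκ hR.le hs0 hs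
  have hK : 0 < Real.sinh κ := Real.sinh_pos_iff.2 hκ
  set s := shf κ τ with hsd
  set Q := Qk κ s with hQd
  have hXn : ‖Xr κ B R τ‖ = X := by
    unfold Xr
    rw [norm_mul, Complex.norm_real, Real.norm_of_nonneg, ← hsd, hX]
    have : 0 < 1 - R := by linarith
    positivity
  have hX0 : 0 ≤ X := by rw [← hXn]; exact norm_nonneg _
  -- the radicand
  have key : ∀ χ : ℂ, ‖χ‖ ≤ X → rd e κ τ χ ∈ slitPlane ∧
      ‖Qk κ (nxt e κ τ χ) - Q‖ ≤ η := by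
    intro χ hχ
    have h1 := rd_eq he hκ (χ := χ) hτ0 (by linarith)
    have hΔ := (hDB χ hχ).trans hE0
    have hQn : Qn κ τ = Q := rfl
    rw [hQn, ← hsd] at h1
    obtain ⟨h2, h3⟩ := sqrt_near hQr hQi hΔ hE1
    rw [← h1] at h2 h3
    refine ⟨h2, ?_⟩
    rw [Qk_nxt hκ]
    exact h3.trans hη
  -- geometry of the next position
  have hS1 := add_one_pos hs0
  have hS : 0 < Real.sinh κ * ‖s + 1‖ := mul_pos hK hS1
  have geo : ∀ χ : ℂ, ‖χ‖ ≤ X → Real.sinh κ * ‖nxt e κ τ χ - s‖ ≤ η ∧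
      nxt e κ τ χ ∈ OmR κ (w * R) E ∧ 0 < (nxt e κ τ χ).re := by
    intro χ hχ
    have h1 := (key χ hχ).2
    rw [hQd, Qk_sub, norm_mul, Complex.norm_real, Real.norm_of_nonneg hK.le] at h1
    set t := nxt e κ τ χ with ht
    have h2 : 0 < Real.sinh κ * ‖t + 1‖ := by
      have h3 : Real.sinh κ * ‖s + 1‖ ≤ Real.sinh κ * ‖t + 1‖ + Real.sinh κ * ‖t - s‖ := by
        rw [← mul_add]
        refine mul_le_mul_of_nonneg_left ?_ hK.le
        calc ‖s + 1‖ = ‖(t + 1) - (t - s)‖ := by congr 1; ring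
          _ ≤ _ := norm_sub_le _ _
      linarith
    have h3 : Real.sinh κ * ‖s + 1‖ - η ≤ Real.sinh κ * ‖t + 1‖ := by
      have h4 : Real.sinh κ * ‖s + 1‖ ≤ Real.sinh κ * ‖t + 1‖ + Real.sinh κ * ‖t - s‖ := by
        rw [← mul_add]
        refine mul_le_mul_of_nonneg_left ?_ hK.le
        calc ‖s + 1‖ = ‖(t + 1) - (t - s)‖ := by congr 1; ring
          _ ≤ _ := norm_sub_le _ _
      linarith
    have ht1 : 0 < ‖t + 1‖ := by
      by_contra h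
      have : ‖t + 1‖ = 0 := le_antisymm (not_lt.1 h) (norm_nonneg _)
      rw [this, mul_zero] at h2
      exact lt_irrefl _ h2
    have ht0 : t + 1 ≠ 0 := norm_pos_iff.1 ht1
    have hs10 : s + 1 ≠ 0 := norm_pos_iff.1 hS1
    -- |t-1|/|t+1| ≤ rt s + 2|t - s|/(|s+1||t+1|)
    have h5 : ‖t - 1‖ ≤ rt s * ‖t + 1‖ + 2 * ‖t - s‖ / ‖s + 1‖ := by
      have e1 : t - 1 = (s - 1) / (s + 1) * (t + 1) + 2 * (t - s) / (s + 1) := by
        field_simp; ring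
      calc ‖t - 1‖ = ‖(s - 1) / (s + 1) * (t + 1) + 2 * (t - s) / (s + 1)‖ := by rw [← e1]
        _ ≤ ‖(s - 1) / (s + 1) * (t + 1)‖ + ‖2 * (t - s) / (s + 1)‖ := norm_add_le _ _
        _ = _ := by rw [norm_mul, norm_div, norm_div, norm_mul, Complex.norm_ofNat]; rfl
    have h6 : 2 * ‖t - s‖ / ‖s + 1‖ ≤ 2 * Real.sinh κ * η /
        (Real.sinh κ * ‖s + 1‖ * (Real.sinh κ * ‖s + 1‖ - η)) * ‖t + 1‖ := by
      have hD : 0 < Real.sinh κ * ‖s + 1‖ - η := by linarith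
      rw [div_mul_eq_mul_div, div_le_div_iff₀ hS1 (mul_pos hS hD)]
      have h7 : (Real.sinh κ * ‖t - s‖) * (Real.sinh κ * ‖s + 1‖ - η) ≤
          η * (Real.sinh κ * ‖t + 1‖) := mul_le_mul h1 h3 hD.le ((by positivity : (0:ℝ) ≤ Real.sinh κ * ‖t - s‖).trans h1)
      have h8 := mul_le_mul_of_nonneg_left h7 (by positivity : 0 ≤ 2 * ‖s + 1‖)
      nlinarith
    have h9 : ‖t - 1‖ < Real.exp (2 * κ) * (w * R) * ‖t + 1‖ := by
      have h10 := mul_lt_mul_of_pos_right hinv ht1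
      linarith
    have h11 : 0 < t.re := re_of_disc (by
      have : Real.exp (2 * κ) * (w * R) = w * (Real.exp (2 * κ) * R) := by ring
      rw [this]
      nlinarith [mul_pos (Real.exp_pos (2 * κ)) hR0]) h9
    exact ⟨h1, ⟨h9, hE t h11 h1⟩, h11⟩
  refine ⟨by rw [hXn]; exact hX1, ?_, ?_, ?_⟩
  · intro χ hχ
    rw [hXn] at hχ
    exact (key χ hχ).1
  · intro χ hχ
    rw [hXn] at hχ
    exact (geo χ hχ).2.1
  · intro χ χ' hχ hχ'
    rw [hXn] at hχ ⊢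
    obtain ⟨g1, g2, g3⟩ := geo χ hχ
    have k2 := (key χ hχ).2
    set t := nxt e κ τ χ with ht
    have r1 := hρ t g3 g1
    have r2 := hqp t g3 g1
    have hwR : w * R < 1 := by nlinarith
    have e1 : 1 - R1 e κ τ t * (1 + qq e κ (shf κ t) * χ') =
        -(R1 e κ τ t - 1) - R1 e κ τ t * qq e κ (shf κ t) * χ' := by ring
    rw [e1]
    refine (norm_sub_le _ _).trans ?_
    rw [norm_neg, norm_mul, norm_mul]
    have r3 : ‖R1 e κ τ t‖ ≤ 1 + ρ1 := by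
      have := norm_add_le (R1 e κ τ t - 1) 1
      rw [sub_add_cancel, norm_one] at this
      linarith
    have hρ0 : 0 ≤ ρ1 := (norm_nonneg _).trans r1
    have hqp0 : 0 ≤ qp := (norm_nonneg _).trans r2
    have hQt : ‖Q‖ - η ≤ ‖Qk κ t‖ := by
      have : ‖Q‖ ≤ ‖Qk κ t‖ + ‖Qk κ t - Q‖ := by
        calc ‖Q‖ = ‖Qk κ t - (Qk κ t - Q)‖ := by congr 1; ring
          _ ≤ _ := norm_sub_le _ _
      linarith
    have hQt0 : 0 < ‖Qk κ t‖ := by linarith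
    have r4 : ‖shf κ t + 1‖ ≤ Real.exp κ * (Real.sinh κ * ‖s + 1‖ + η) /
        (Real.sinh κ * (‖Q‖ - η)) := by
      have h1 := congrArg norm (shf_add_one hκ g3)
      rw [norm_mul, norm_mul, Complex.norm_real, Real.norm_of_nonneg (Real.exp_pos κ).le] at h1
      have h2 : Real.sinh κ * ‖t + 1‖ ≤ Real.sinh κ * ‖s + 1‖ + η := by
        have h3 : ‖t + 1‖ ≤ ‖s + 1‖ + ‖t - s‖ := by
          calc ‖t + 1‖ = ‖(s + 1) + (t - s)‖ := by congr 1; ring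
            _ ≤ _ := norm_add_le _ _
        have h4 := mul_le_mul_of_nonneg_left h3 hK.le
        linarith
      rw [le_div_iff₀ (mul_pos hK (by linarith))]
      have h5 : ‖shf κ t + 1‖ * (‖Q‖ - η) ≤ Real.exp κ * ‖t + 1‖ := by
        rw [← h1]
        exact mul_le_mul_of_nonneg_left hQt (norm_nonneg _)
      have h6 := mul_le_mul_of_nonneg_left h5 hK.le
      have h7 := mul_le_mul_of_nonneg_left h2 (Real.exp_pos κ).le
      nlinarith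
    have r5 : ‖χ'‖ ≤ (B * (w * R) / (1 - w * R)) * (Real.exp κ * (Real.sinh κ * ‖s + 1‖ + η) /
        (Real.sinh κ * (‖Q‖ - η))) := by
      refine hχ'.trans ?_
      unfold Xr
      have h1 : 0 ≤ B * (w * R) / (1 - w * R) := by
        have : 0 < 1 - w * R := by linarith
        positivity
      rw [norm_mul, Complex.norm_real, Real.norm_of_nonneg h1]
      exact mul_le_mul_of_nonneg_left r4 h1
    have r6 : ‖R1 e κ τ t‖ * ‖qq e κ (shf κ t)‖ ≤ (1 + ρ1) * qp :=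
      mul_le_mul r3 r2 (norm_nonneg _) (by linarith)
    have r7 := mul_le_mul r6 r5 (norm_nonneg _) (by positivity)
    linarith


/-- `‖exp z - 1‖ ≤ ‖z‖ (1 + exp (Re z))/2` -/
theorem norm_exp_sub_one_conv (z : ℂ) : ‖exp z - 1‖ ≤ ‖z‖ * ((1 + Real.exp z.re) / 2) := by
  have hd : ∀ t ∈ Icc (0 : ℝ) 1, HasDerivAt (fun t : ℝ => exp ((t : ℂ) * z) - 1)
      (exp ((t : ℂ) * z) * z) t := by
    intro t _
    have h1 : HasDerivAt (fun t : ℝ => ((t : ℂ) * z)) z t := by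
      have := (Complex.ofRealCLM.hasDerivAt (x := t)).mul_const z
      simpa using this
    exact (h1.cexp).sub_const 1
  have h := image_norm_le_of_norm_deriv_right_le_deriv_boundary
    (f := fun t : ℝ => exp ((t : ℂ) * z) - 1) (f' := fun t : ℝ => exp ((t : ℂ) * z) * z)
    (a := 0) (b := 1) (B := fun t : ℝ => ‖z‖ * (t + (Real.exp z.re - 1) * t ^ 2 / 2))
    (B' := fun t : ℝ => ‖z‖ * (1 + (Real.exp z.re - 1) * t))
    (fun t ht => (hd t ht).continuousAt.continuousWithinAt)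
    (fun t ht => (hd t ⟨ht.1, ht.2.le⟩).hasDerivWithinAt) (by simp) ?_ ?_ (x := 1) (by simp)
  · simp only [ofReal_one, one_mul] at h
    refine h.trans (le_of_eq ?_)
    ring
  · intro t
    have h1 := ((hasDerivAt_id t).add (((hasDerivAt_pow 2 t).const_mul (Real.exp z.re - 1)).div_const
      2)).const_mul ‖z‖
    refine h1.congr_deriv ?_
    push_cast
    ring
  · intro t ht
    rw [norm_mul, Complex.norm_exp, Complex.re_ofReal_mul, mul_comm]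
    refine mul_le_mul_of_nonneg_left ?_ (norm_nonneg _)
    -- convexity
    have h1 := convexOn_exp.2 (mem_univ (0 : ℝ)) (mem_univ z.re)
      (by linarith [ht.2] : 0 ≤ 1 - t) ht.1 (by ring)
    simp only [smul_eq_mul, mul_zero, zero_add, Real.exp_zero, mul_one] at h1
    linarith

theorem fT_norm_ge (he : 0 < e) (hκ : 0 < κ) {s : ℂ} (hs : 0 < s.re) : 1 / 2 < ‖fT e κ s‖ := by
  have h1 := gR_pos he hκ hs
  have h2 := gR_lt_norm (e := e) (κ := κ) s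
  linarith

/-- real part of `2 b1`, `b1 = (log f_inf - log f)/e` -/
theorem exp_b1_le (he : 2 ≤ e) (hκ : 0 < κ) {s : ℂ} (hs : 0 < s.re) :
    Real.exp (2 * ((log (fT e κ 1) - log (fT e κ s)) / e)).re ≤ 1 + 2 / e := by
  have he0 : 0 < e := by linarith
  have h1 := fT_norm_ge he0 hκ hs
  have h2 : ‖fT e κ 1‖ ≤ 1 := by
    rw [fT_one he0 hκ, Complex.norm_real, Real.norm_of_nonneg (by positivity)]
    rw [div_le_one (by positivity)]
    linarith [Real.exp_pos (-(e * κ))]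
  have h20 : 0 < ‖fT e κ 1‖ := by
    rw [fT_one he0 hκ, Complex.norm_real, Real.norm_of_nonneg (by positivity)]
    positivity
  have e1 : (2 * ((log (fT e κ 1) - log (fT e κ s)) / e)).re =
      2 / e * (Real.log ‖fT e κ 1‖ - Real.log ‖fT e κ s‖) := by
    have : (2 * ((log (fT e κ 1) - log (fT e κ s)) / e)) =
        ((2 / e : ℝ) : ℂ) * (log (fT e κ 1) - log (fT e κ s)) := by push_cast; ring
    rw [this, Complex.re_ofReal_mul, Complex.sub_re, Complex.log_re, Complex.log_re]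
  rw [e1]
  have h3 : Real.log ‖fT e κ 1‖ - Real.log ‖fT e κ s‖ ≤ Real.log 2 := by
    have h4 := Real.log_le_log h20 h2
    rw [Real.log_one] at h4
    have h5 := Real.log_le_log (by norm_num : (0:ℝ) < 1 / 2) h1.le
    rw [Real.log_div one_ne_zero two_ne_zero, Real.log_one] at h5
    linarith
  have h4 : Real.exp (2 / e * (Real.log ‖fT e κ 1‖ - Real.log ‖fT e κ s‖)) ≤
      (2 : ℝ) ^ (2 / e) := by
    rw [Real.rpow_def_of_pos (by norm_num)]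
    apply Real.exp_le_exp.2
    have := mul_le_mul_of_nonneg_left h3 (by positivity : 0 ≤ 2 / e)
    linarith
  refine h4.trans ?_
  have h5 := rpow_one_add_le_one_add_mul_self (s := 1) (p := 2 / e) (by norm_num)
    (by positivity) (by rw [div_le_one he0]; exact he)
  rw [show (1:ℝ) + 1 = 2 by norm_num, mul_one] at h5
  exact h5

/-- the second bound of `Dl`, `‖exp (2 b1)‖ ≤ Ex` -/
noncomputable def DlB' (e κ : ℝ) (Q : ℂ) (L1 M2 lf Ex : ℝ) : ℝ :=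
  ‖Q - (Real.exp κ : ℂ)‖ ^ 2 * ‖Q - (Real.exp (-(2 * κ)) : ℂ)‖ +
    (Real.exp L1 - 1) * (‖Q‖ * ‖1 - (2 * (Real.cosh κ : ℂ) - Q) ^ 2‖) +
    (1 - Real.exp (-κ)) ^ 2 * ‖Q‖ * (‖Q‖ *
      (Ex * (Real.exp (2 * L1 + 2 * M2) - 1) + 2 * lf / e * ((1 + Ex) / 2)) +
      (Ex * (Real.exp (L1 + 2 * M2) - 1) + 2 * lf / e * ((1 + Ex) / 2)))

theorem b0_le (he : 0 < e) {s χ : ℂ} {X nq : ℝ} (hχ : ‖χ‖ ≤ X)
    (hnq : ‖qq e κ s‖ ≤ nq) (hX : nq * X < 1) :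
    ‖log (1 + qq e κ s * χ) / e‖ ≤ (nq * X / (1 - nq * X)) / e := by
  have hX0 : 0 ≤ X := (norm_nonneg _).trans hχ
  have h0 : ‖qq e κ s‖ * X ≤ nq * X := mul_le_mul_of_nonneg_right hnq hX0
  have h1 := H7b hχ (lt_of_le_of_lt h0 hX)
  have h2 : ‖qq e κ s‖ * X / (1 - ‖qq e κ s‖ * X) ≤ nq * X / (1 - nq * X) := by
    rw [div_le_div_iff₀ (by linarith) (by linarith)]
    nlinarith
  rw [norm_div, Complex.norm_real, Real.norm_of_nonneg he.le]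
  exact div_le_div_of_nonneg_right (h1.trans h2) he.le

theorem Dl_le' (he0 : 0 < e) (hκ : 0 < κ) {s χ Q a : ℂ} {X lf nq L1 M2 Ex : ℝ}
    (hEx : ‖exp (2 * ((log (fT e κ 1) - log (fT e κ s)) / e))‖ ≤ Ex) (ha : ‖a‖ ≤ L1) (hχ : ‖χ‖ ≤ X) (hlf : ‖log (fT e κ s) - log (fT e κ 1)‖ ≤ lf)
    (hnq : ‖qq e κ s‖ ≤ nq) (hX : nq * X < 1) (hM2 : (nq * X / (1 - nq * X)) / e ≤ M2) :
    ‖Dl κ Q a (l2 e κ s χ)‖ ≤ DlB' e κ Q L1 M2 lf Ex := by
  have h0 : Real.exp (-κ) < 1 := by rw [Real.exp_lt_one_iff]; linarith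
  have h1 := norm_exp_sub_one ha
  set b0 := -(log (1 + qq e κ s * χ) / e) with hb0
  set b1 := (log (fT e κ 1) - log (fT e κ s)) / (e : ℂ) with hb1
  have hb : l2 e κ s χ = b0 + b1 := by rw [hb0, hb1]; unfold l2 LF; ring
  have n0 : ‖b0‖ ≤ M2 := by rw [hb0, norm_neg]; exact (b0_le he0 hχ hnq hX).trans hM2
  have hEn : ‖exp (2 * b1)‖ ≤ Ex := hEx
  have hE : Real.exp (2 * b1).re ≤ Ex := by rwa [Complex.norm_exp] at hEn
  have hEx0 : 0 ≤ Ex := (norm_nonneg _).trans hEn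
  have hn1 : ‖2 * b1‖ ≤ 2 * lf / e := by
    rw [hb1, norm_mul, norm_div, Complex.norm_ofNat, Complex.norm_real, Real.norm_of_nonneg he0.le,
      norm_sub_rev, mul_div_assoc]
    gcongr
  have hE1 : ‖exp (2 * b1) - 1‖ ≤ 2 * lf / e * ((1 + Ex) / 2) := by
    refine (norm_exp_sub_one_conv _).trans ?_
    have hp := Real.exp_pos (2 * b1).re
    exact mul_le_mul hn1 (by linarith) (by positivity) ((norm_nonneg _).trans hn1)
  have gen : ∀ z : ℂ, ∀ l : ℝ, ‖z‖ ≤ l → ‖exp (z + 2 * b1) - 1‖ ≤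
      Ex * (Real.exp l - 1) + 2 * lf / e * ((1 + Ex) / 2) := by
    intro z l hz
    have e1 : exp (z + 2 * b1) - 1 = exp (2 * b1) * (exp z - 1) + (exp (2 * b1) - 1) := by
      rw [Complex.exp_add]; ring
    rw [e1]
    refine (norm_add_le _ _).trans (add_le_add ?_ hE1)
    rw [norm_mul]
    exact mul_le_mul hEn (norm_exp_sub_one hz) (norm_nonneg _) (by positivity)
  have h2 : ‖exp (2 * a + 2 * (b0 + b1)) - 1‖ ≤
      Ex * (Real.exp (2 * L1 + 2 * M2) - 1) + 2 * lf / e * ((1 + Ex) / 2) := by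
    have e1 : 2 * a + 2 * (b0 + b1) = (2 * a + 2 * b0) + 2 * b1 := by ring
    rw [e1]
    refine gen _ _ ((norm_add_le _ _).trans ?_)
    rw [norm_mul, norm_mul, Complex.norm_ofNat]
    linarith
  have h3 : ‖exp (a + 2 * (b0 + b1)) - 1‖ ≤
      Ex * (Real.exp (L1 + 2 * M2) - 1) + 2 * lf / e * ((1 + Ex) / 2) := by
    have e1 : a + 2 * (b0 + b1) = (a + 2 * b0) + 2 * b1 := by ring
    rw [e1]
    refine gen _ _ ((norm_add_le _ _).trans ?_)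
    rw [norm_mul, Complex.norm_ofNat]
    linarith
  have h4 : ‖(1 - (Real.exp (-κ) : ℂ))‖ = 1 - Real.exp (-κ) := by
    rw [show (1 - (Real.exp (-κ) : ℂ)) = ((1 - Real.exp (-κ) : ℝ) : ℂ) by push_cast; ring,
      Complex.norm_real, Real.norm_of_nonneg (by linarith)]
  rw [hb]
  unfold Dl DlB'
  refine (norm_add₃_le).trans ?_
  have t1 : ‖-((Q - (Real.exp κ : ℂ)) ^ 2 * (Q - (Real.exp (-(2 * κ)) : ℂ)))‖ ≤
      ‖Q - (Real.exp κ : ℂ)‖ ^ 2 * ‖Q - (Real.exp (-(2 * κ)) : ℂ)‖ := by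
    rw [norm_neg, norm_mul, norm_pow]
  have t2 : ‖(exp a - 1) * (Q * (1 - (2 * (Real.cosh κ : ℂ) - Q) ^ 2))‖ ≤
      (Real.exp L1 - 1) * (‖Q‖ * ‖1 - (2 * (Real.cosh κ : ℂ) - Q) ^ 2‖) := by
    rw [norm_mul, norm_mul]
    exact mul_le_mul_of_nonneg_right h1 (by positivity)
  set U1 := Ex * (Real.exp (2 * L1 + 2 * M2) - 1) + 2 * lf / e * ((1 + Ex) / 2)
  set U2 := Ex * (Real.exp (L1 + 2 * M2) - 1) + 2 * lf / e * ((1 + Ex) / 2)
  have t3 : ‖(1 - (Real.exp (-κ) : ℂ)) ^ 2 * Q *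
      (Q * (exp (2 * a + 2 * (b0 + b1)) - 1) + (exp (a + 2 * (b0 + b1)) - 1))‖ ≤
      (1 - Real.exp (-κ)) ^ 2 * ‖Q‖ * (‖Q‖ * U1 + U2) := by
    rw [norm_mul, norm_mul, norm_pow, h4]
    refine mul_le_mul_of_nonneg_left ?_ (by positivity)
    refine (norm_add_le _ _).trans ?_
    rw [norm_mul]
    exact add_le_add (mul_le_mul_of_nonneg_left h2 (norm_nonneg _)) h3
  linarith

theorem Ex_two (he : 2 ≤ e) (hκ : 0 < κ) {s : ℂ} (hs : 0 < s.re) :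
    ‖exp (2 * ((log (fT e κ 1) - log (fT e κ s)) / e))‖ ≤ 1 + 2 / e := by
  rw [Complex.norm_exp]; exact exp_b1_le he hκ hs

theorem Ex_lf (he : 0 < e) {s : ℂ} {lf Ex : ℝ}
    (hlf : ‖log (fT e κ s) - log (fT e κ 1)‖ ≤ lf) (hE : Real.exp (2 * lf / e) ≤ Ex) :
    ‖exp (2 * ((log (fT e κ 1) - log (fT e κ s)) / e))‖ ≤ Ex := by
  rw [Complex.norm_exp]
  refine (Real.exp_le_exp.2 ?_).trans hE
  refine (Complex.re_le_norm _).trans ?_
  rw [norm_mul, norm_div, Complex.norm_ofNat, Complex.norm_real, Real.norm_of_nonneg he.le,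
    norm_sub_rev, mul_div_assoc]
  gcongr

/-- **FarPt from number hypotheses**, with the second bound `DlB'`: `M2` bounds only the
effect of `qq χ`, the effect of `f_inf/f` is treated separately (linear in `lf/e`).
`Ex = 1 + 2/e` is allowed for `e ≥ 2` (`Ex_two`), `Ex = exp (2 lf/e)` always (`Ex_lf`). -/
theorem farPt_core' (he0 : 0 < e) (hκ : 0 < κ) {θ w B R : ℝ} {E : Set ℂ} {τ : ℂ}
    (hR0 : 0 < R) (hB : 0 < B) (hw : 0 < w) (hw1 : w ≤ 1) (hR : Real.exp (2 * κ) * R < 1)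
    (hτ : ‖τ - 1‖ < Real.exp (2 * κ) * R * ‖τ + 1‖)
    {X ls lf nq n1 L1 M2 Ex E0 η ρ1 qp : ℝ}
    (hX : X = B * R / (1 - R) * ‖shf κ τ + 1‖) (hX1 : X < 1)
    (hls : ‖log (fT e κ (shf κ τ)) - log (fT e κ (shf κ (shf κ τ)))‖ ≤ ls)
    (hlf : ‖log (fT e κ (shf κ τ)) - log (fT e κ 1)‖ ≤ lf)
    (hnq : ‖qq e κ (shf κ τ)‖ ≤ nq) (hnX : nq * X < 1) (hn1 : ‖1 + qq e κ (shf κ τ)‖ ≤ n1)
    (hL1 : (ls + n1 * (X / (1 - X))) / e ≤ L1) (hM2 : (nq * X / (1 - nq * X)) / e ≤ M2)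
    (hEx : ‖exp (2 * ((log (fT e κ 1) - log (fT e κ (shf κ τ))) / e))‖ ≤ Ex)
    (hE0 : DlB' e κ (Qk κ (shf κ τ)) L1 M2 lf Ex ≤ 2 * ‖Qk κ (shf κ τ)‖ * E0)
    (hE1 : 2 * E0 < ‖Qk κ (shf κ τ)‖)
    (hη : E0 / (1 - E0 / ‖Qk κ (shf κ τ)‖) ≤ η)
    (hηS : η < Real.sinh κ * ‖shf κ τ + 1‖)
    (hinv : rt (shf κ τ) + 2 * Real.sinh κ * η /
      (Real.sinh κ * ‖shf κ τ + 1‖ * (Real.sinh κ * ‖shf κ τ + 1‖ - η)) <
      Real.exp (2 * κ) * (w * R))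
    (hE : ∀ τ' : ℂ, 0 < τ'.re → Real.sinh κ * ‖τ' - shf κ τ‖ ≤ η → τ' ∈ E)
    (hρ : ∀ τ' : ℂ, 0 < τ'.re → Real.sinh κ * ‖τ' - shf κ τ‖ ≤ η → ‖R1 e κ τ τ' - 1‖ ≤ ρ1)
    (hqp : ∀ τ' : ℂ, 0 < τ'.re → Real.sinh κ * ‖τ' - shf κ τ‖ ≤ η → ‖qq e κ (shf κ τ')‖ ≤ qp)
    (hηQ : η < ‖Qk κ (shf κ τ)‖)
    (hclose : ρ1 + (1 + ρ1) * qp * (B * (w * R) / (1 - w * R)) *
      (Real.exp κ * (Real.sinh κ * ‖shf κ τ + 1‖ + η) /
        (Real.sinh κ * (‖Qk κ (shf κ τ)‖ - η))) ≤ θ * X) :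
    FarPt e κ θ w B R E τ := by
  obtain ⟨hτ0, -⟩ := reg_s hκ hR.le hτ
  have hs0 := shf_re hκ hτ0.le
  refine farPt_core0 he0 hκ hR0 hB hw hw1 hR hτ hX hX1 (DB := DlB' e κ (Qk κ (shf κ τ)) L1 M2 lf Ex)
    ?_ hE0 hE1 hη hηS hinv hE hρ hqp hηQ hclose
  intro χ hχ
  exact Dl_le' he0 hκ hEx ((a_le he0 hκ hs0 hχ hX1 hls hn1).trans hL1) hχ hlf hnq hnX hM2

end Pool.Agent.helper63.FF
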